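import Pool.Agent.Work.MP_79d924_lc.Defs

/-!
Module ExtForm: extension of scalars of a symmetric multilinear form over `ZMod 2`.

`T' = ∑ f : J → Fin m, algebraMap (T (fun j => Pi.single (f j) 1)) •
   (MultilinearMap.mkPiAlgebra F J F).compLinearMap (fun j => LinearMap.proj (f j))`.
Symmetry: reindex `f ↦ f ∘ σ`.  Compatibility: expand `T x` multilinearly on the standard basis
(e.g. `Basis.ext_multilinear` applied to the same formula over `ZMod 2`).
-/

set_option autoImplicit false

namespace Pool.Agent.Work.MP_79d924_lc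

open Module

/-- the multilinear form with prescribed values on the standard basis -/
noncomputable def mkForm (F : Type) [Field F] {m : ℕ} {J : Type} [DecidableEq J] [Fintype J]
    (τ : (J → Fin m) → F) : MultilinearMap F (fun _ : J => (Fin m → F)) F :=
  ∑ f : J → Fin m, τ f •
    (MultilinearMap.mkPiAlgebra F J F).compLinearMap (fun j => LinearMap.proj (f j))

theorem mkForm_apply (F : Type) [Field F] {m : ℕ} {J : Type} [DecidableEq J] [Fintype J]
    (τ : (J → Fin m) → F) (x : J → Fin m → F) :
    mkForm F τ x = ∑ f : J → Fin m, τ f * ∏ j, x j (f j) := by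
  simp [mkForm, MultilinearMap.sum_apply]

theorem mkForm_eq (F : Type) [Field F] {m : ℕ} {J : Type} [DecidableEq J] [Fintype J]
    (T : MultilinearMap F (fun _ : J => (Fin m → F)) F) :
    T = mkForm F (fun f => T (fun j => Pi.single (f j) 1)) := by
  classical
  refine Basis.ext_multilinear (fun _ => Pi.basisFun F (Fin m)) fun g => ?_
  rw [mkForm_apply]
  simp only [Pi.basisFun_apply]
  rw [Finset.sum_eq_single g]
  · simp
  · intro f _ hf
    have : ∃ j, f j ≠ g j := by
      by_contra h
      push_neg at h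
      exact hf (funext h)
    obtain ⟨j, hj⟩ := this
    have h0 : ∏ j, (Pi.single (g j) (1 : F) : Fin m → F) (f j) = 0 :=
      Finset.prod_eq_zero (Finset.mem_univ j) (by simp [Pi.single_apply, hj])
    rw [h0, mul_zero]
  · intro h; exact absurd (Finset.mem_univ _) h

theorem exists_ext (F : Type) [Field F] [Algebra (ZMod 2) F] {m : ℕ} {J : Type} [DecidableEq J]
    [Fintype J] (T : MultilinearMap (ZMod 2) (fun _ : J => (Fin m → ZMod 2)) (ZMod 2))
    (hT : IsSym T) :
    ∃ T' : MultilinearMap F (fun _ : J => (Fin m → F)) F, IsSym T' ∧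
      ∀ x : J → Fin m → ZMod 2,
        T' (fun j i => algebraMap (ZMod 2) F (x j i)) = algebraMap (ZMod 2) F (T x) := by
  classical
  refine ⟨mkForm F (fun f => algebraMap (ZMod 2) F (T (fun j => Pi.single (f j) 1))), ?_, ?_⟩
  · intro σ x
    rw [mkForm_apply, mkForm_apply]
    -- reindex `f ↦ f ∘ σ`
    have h1 : ∀ f : J → Fin m, ∏ j, x (σ j) (f (σ j)) = ∏ j, x j (f j) := fun f =>
      Equiv.prod_comp σ (fun j => x j (f j))
    rw [← Equiv.sum_comp (Equiv.arrowCongr σ.symm (Equiv.refl (Fin m)))
      (fun f => algebraMap (ZMod 2) F (T (fun j => Pi.single (f j) 1)) * ∏ j, x (σ j) (f j))]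
    refine Finset.sum_congr rfl fun f _ => ?_
    have h2 : (Equiv.arrowCongr σ.symm (Equiv.refl (Fin m))) f = fun j => f (σ j) := by
      ext j; simp [Equiv.arrowCongr]
    rw [h2]
    have h3 : T (fun j => Pi.single (f (σ j)) 1) = T (fun j => Pi.single (f j) 1) :=
      hT σ (fun j => Pi.single (f j) 1)
    rw [h3, h1]
  · intro x
    rw [mkForm_apply]
    conv_rhs => rw [mkForm_eq (ZMod 2) T, mkForm_apply]
    rw [map_sum]
    refine Finset.sum_congr rfl fun f _ => ?_
    rw [map_mul, map_prod]

end Pool.Agent.Work.MP_79d924_lc
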