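import Pool.Agent.Work.MP_79d924_lc.RankSpan

/-!
Module ExtRank (uses the statement of RankSpan).

Write `ι : (Fin m → ZMod 2) → (Fin m → F)` for the coordinatewise `algebraMap`.
Claim: for every finset `I` with `p, q ∉ I` and every `x : J → Fin m → F` such that
`x j ∈ range ι` for all `j ∉ I`, `j ≠ p`, `j ≠ q`, one has `rk (bil T' hpq x) ≤ 4 ^ I.card * r`.
-/

set_option autoImplicit false

namespace Pool.Agent.Work.MP_79d924_lc

open Module

section
variable (F : Type) [Field F] [Algebra (ZMod 2) F] {m : ℕ}

/-- coordinatewise `algebraMap` -/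
def emb : (Fin m → ZMod 2) →+ (Fin m → F) where
  toFun x i := algebraMap (ZMod 2) F (x i)
  map_zero' := by ext; simp
  map_add' x y := by ext; simp

theorem emb_apply (x : Fin m → ZMod 2) (i : Fin m) : emb F x i = algebraMap (ZMod 2) F (x i) := rfl

theorem emb_single (l : Fin m) : emb F (Pi.single l 1) = Pi.single l (1 : F) := by
  ext i
  rw [emb_apply]
  by_cases h : i = l
  · subst h; simp
  · simp [h]

variable {J : Type} [DecidableEq J] [Fintype J]

/-- an `F`-bilinear form which on `ZMod 2`-points is a base change has rank at most the rank over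
`ZMod 2` -/
theorem rk_base_change (M : (Fin m → ZMod 2) →ₗ[ZMod 2] (Fin m → ZMod 2) →ₗ[ZMod 2] ZMod 2)
    (M' : (Fin m → F) →ₗ[F] (Fin m → F) →ₗ[F] F)
    (h : ∀ u v, M' (emb F u) (emb F v) = algebraMap (ZMod 2) F (M u v)) : rk M' ≤ rk M := by
  classical
  -- base change of functionals
  let ψ : ((Fin m → ZMod 2) →ₗ[ZMod 2] ZMod 2) →+ ((Fin m → F) →ₗ[F] F) :=
    { toFun := fun φ => ∑ i, algebraMap (ZMod 2) F (φ (Pi.single i 1)) • LinearMap.proj i
      map_zero' := by simp
      map_add' := fun a b => by
        simp only [LinearMap.add_apply, map_add, add_smul, Finset.sum_add_distrib] }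
  have hψ : ∀ φ : (Fin m → ZMod 2) →ₗ[ZMod 2] ZMod 2, ∀ l,
      ψ φ (Pi.single l 1) = algebraMap (ZMod 2) F (φ (Pi.single l 1)) := by
    intro φ l
    show (∑ i, algebraMap (ZMod 2) F (φ (Pi.single i 1)) • LinearMap.proj i : (Fin m → F) →ₗ[F] F)
      (Pi.single l 1) = _
    rw [LinearMap.sum_apply, Finset.sum_eq_single l]
    · rw [LinearMap.smul_apply, LinearMap.proj_apply, Pi.single_eq_same, smul_eq_mul, mul_one]
    · intro i _ hi
      rw [LinearMap.smul_apply, LinearMap.proj_apply, Pi.single_eq_of_ne hi, smul_zero]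
    · intro h; exact absurd (Finset.mem_univ _) h
  have hM' : ∀ l, M' (Pi.single l 1) = ψ (M (Pi.single l 1)) := by
    intro l
    refine LinearMap.pi_ext' fun i => ?_
    ext
    simp only [LinearMap.coe_comp, LinearMap.coe_single, Function.comp_apply]
    rw [hψ, ← h, emb_single, emb_single]
  -- smul compatibility of ψ over ZMod 2
  have hψs : ∀ (c : ZMod 2) φ, ψ (c • φ) = algebraMap (ZMod 2) F c • ψ φ := by
    intro c φ
    have : c = 0 ∨ c = 1 := by revert c; decide
    rcases this with rfl | rfl
    · rw [zero_smul, map_zero, map_zero, zero_smul]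
    · rw [one_smul, map_one, one_smul]
  let R := LinearMap.range M
  let b := Module.finBasis (ZMod 2) R
  let S : Submodule F ((Fin m → F) →ₗ[F] F) :=
    Submodule.span F (Set.range fun i => ψ (b i : (Fin m → ZMod 2) →ₗ[ZMod 2] ZMod 2))
  have hS : LinearMap.range M' ≤ S := by
    rintro _ ⟨x, rfl⟩
    have hx : x = ∑ l, x l • (Pi.single l (1 : F) : Fin m → F) := by
      ext i
      simp [Finset.sum_apply, Pi.single_apply]
    rw [hx, map_sum]
    refine Submodule.sum_mem _ fun l _ => ?_
    rw [map_smul]
    refine Submodule.smul_mem _ _ ?_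
    rw [hM']
    have hmem : M (Pi.single l 1) ∈ R := LinearMap.mem_range_self M _
    have h1 : ∑ i, (b.repr ⟨M (Pi.single l 1), hmem⟩ i) •
        (b i : (Fin m → ZMod 2) →ₗ[ZMod 2] ZMod 2) = M (Pi.single l 1) := by
      have h2 := congrArg (fun z : R => (z : (Fin m → ZMod 2) →ₗ[ZMod 2] ZMod 2))
        (b.sum_repr ⟨M (Pi.single l 1), hmem⟩)
      simp only [Submodule.coe_sum, Submodule.coe_smul] at h2
      exact h2
    rw [← h1, map_sum]
    refine Submodule.sum_mem _ fun i _ => ?_
    rw [hψs]
    exact Submodule.smul_mem _ _ (Submodule.subset_span ⟨i, rfl⟩)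
  calc rk M' ≤ finrank F S := Submodule.finrank_mono hS
    _ ≤ Fintype.card (Fin (finrank (ZMod 2) R)) := finrank_range_le_card _
    _ = rk M := by rw [Fintype.card_fin]; rfl

theorem bil_congr (T : MultilinearMap F (fun _ : J => (Fin m → F)) F) {p q : J} (hpq : p ≠ q)
    (x y : J → Fin m → F) (h : ∀ j, j ≠ p → j ≠ q → x j = y j) : bil T hpq x = bil T hpq y := by
  ext u v : 4
  simp only [LinearMap.coe_comp, Function.comp_apply]
  rw [bil_apply, bil_apply]
  congr 1
  ext j : 1
  by_cases hq : j = q
  · subst hq; simp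
  · rw [Function.update_of_ne hq, Function.update_of_ne hq]
    by_cases hp : j = p
    · subst hp; simp
    · rw [Function.update_of_ne hp, Function.update_of_ne hp, h j hp hq]

end

section
variable {F : Type} [Field F] {V J : Type} [AddCommGroup V] [Module F V] [DecidableEq J]

theorem bil_update_add (T : MultilinearMap F (fun _ : J => V) F) {p q : J} (hpq : p ≠ q)
    (x : J → V) (i : J) (hp : i ≠ p) (hq : i ≠ q) (a b : V) :
    bil T hpq (Function.update x i (a + b))
      = bil T hpq (Function.update x i a) + bil T hpq (Function.update x i b) := by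
  ext u v
  simp only [LinearMap.add_apply, bil_apply]
  have h : ∀ c, Function.update (Function.update (Function.update x i c) p u) q v
      = Function.update (Function.update (Function.update x p u) q v) i c := by
    intro c
    rw [Function.update_comm hp, Function.update_comm hq]
  rw [h, h, h]
  exact T.map_update_add _ _ _ _

theorem bil_update_smul (T : MultilinearMap F (fun _ : J => V) F) {p q : J} (hpq : p ≠ q)
    (x : J → V) (i : J) (hp : i ≠ p) (hq : i ≠ q) (c : F) (a : V) :
    bil T hpq (Function.update x i (c • a)) = c • bil T hpq (Function.update x i a) := by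
  ext u v
  simp only [LinearMap.smul_apply, bil_apply]
  have h : ∀ c, Function.update (Function.update (Function.update x i c) p u) q v
      = Function.update (Function.update (Function.update x p u) q v) i c := by
    intro c
    rw [Function.update_comm hp, Function.update_comm hq]
  rw [h, h]
  rw [T.map_update_smul]

/-- the slot map as a linear map -/
def slot (T : MultilinearMap F (fun _ : J => V) F) {p q : J} (hpq : p ≠ q)
    (x : J → V) (i : J) (hp : i ≠ p) (hq : i ≠ q) : V →ₗ[F] (V →ₗ[F] V →ₗ[F] F) where
  toFun a := bil T hpq (Function.update x i a)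
  map_add' a b := bil_update_add T hpq x i hp hq a b
  map_smul' c a := bil_update_smul T hpq x i hp hq c a

end

theorem ext_rank_aux (F : Type) [Field F] [Algebra (ZMod 2) F] {m : ℕ} {J : Type} [DecidableEq J]
    [Fintype J] (T : MultilinearMap (ZMod 2) (fun _ : J => (Fin m → ZMod 2)) (ZMod 2))
    (T' : MultilinearMap F (fun _ : J => (Fin m → F)) F)
    (hTT' : ∀ x : J → Fin m → ZMod 2, T' (fun j => emb F (x j)) = algebraMap (ZMod 2) F (T x))
    {p q : J} (hpq : p ≠ q) (r : ℕ) (hr : ∀ x, rk (bil T hpq x) ≤ r) (I : Finset J) :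
    p ∉ I → q ∉ I → ∀ x : J → Fin m → F,
      (∀ j, j ∉ I → j ≠ p → j ≠ q → ∃ t, x j = emb F t) →
      rk (bil T' hpq x) ≤ 4 ^ I.card * r := by
  classical
  induction I using Finset.induction_on with
  | empty =>
    intro _ _ x hx
    rw [Finset.card_empty, pow_zero, one_mul]
    have : ∃ x0 : J → Fin m → ZMod 2, ∀ j, j ≠ p → j ≠ q → x j = emb F (x0 j) := by
      refine ⟨fun j => if h : j ≠ p ∧ j ≠ q then
        (hx j (Finset.notMem_empty _) h.1 h.2).choose else 0, fun j hp hq => ?_⟩
      have hc : j ≠ p ∧ j ≠ q := ⟨hp, hq⟩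
      simp only [hc, dite_true, ne_eq, not_false_eq_true, and_self]
      exact (hx j (Finset.notMem_empty _) hp hq).choose_spec
    obtain ⟨x0, hx0⟩ := this
    rw [bil_congr F T' hpq x (fun j => emb F (x0 j)) hx0]
    refine le_trans (rk_base_change F (bil T hpq x0) _ fun u v => ?_) (hr x0)
    rw [bil_apply, bil_apply, ← hTT']
    congr 1
    ext j : 1
    by_cases hq : j = q
    · subst hq; simp
    · rw [Function.update_of_ne hq, Function.update_of_ne hq]
      by_cases hp : j = p
      · subst hp; simp
      · rw [Function.update_of_ne hp, Function.update_of_ne hp]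
  | insert i I hi ih =>
    intro hp hq x hx
    have hip : i ≠ p := fun h => hp (h ▸ Finset.mem_insert_self i I)
    have hiq : i ≠ q := fun h => hq (h ▸ Finset.mem_insert_self i I)
    have hpI : p ∉ I := fun h => hp (Finset.mem_insert_of_mem h)
    have hqI : q ∉ I := fun h => hq (Finset.mem_insert_of_mem h)
    let φ := slot T' hpq x i hip hiq
    let G : AddSubgroup ((Fin m → F) →ₗ[F] (Fin m → F) →ₗ[F] F) :=
      (φ.toAddMonoidHom.comp (emb F)).range
    have hG : ∀ g ∈ G, rk g ≤ 4 ^ I.card * r := by
      rintro _ ⟨t, rfl⟩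
      refine ih hpI hqI (Function.update x i (emb F t)) fun j hj hjp hjq => ?_
      by_cases hji : j = i
      · subst hji; exact ⟨t, by simp⟩
      · rw [Function.update_of_ne hji]
        exact hx j (fun h => by
          rcases Finset.mem_insert.mp h with h | h
          · exact hji h
          · exact hj h) hjp hjq
    have hmem : bil T' hpq x ∈ Submodule.span F (G : Set _) := by
      have h1 : bil T' hpq x = φ (x i) := by
        show _ = bil T' hpq (Function.update x i (x i))
        rw [Function.update_eq_self]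
      have h2 : x i = ∑ l, x i l • (Pi.single l (1 : F) : Fin m → F) := by
        ext j
        simp [Finset.sum_apply, Pi.single_apply]
      rw [h1, h2, map_sum]
      refine Submodule.sum_mem _ fun l _ => ?_
      rw [map_smul]
      refine Submodule.smul_mem _ _ (Submodule.subset_span ?_)
      refine ⟨Pi.single l 1, ?_⟩
      show φ (emb F (Pi.single l 1)) = _
      rw [emb_single]
    have := rk_span_le (4 ^ I.card * r) _ _ G hG _ hmem
    rw [Finset.card_insert_of_notMem hi, pow_succ]
    calc _ ≤ 4 * (4 ^ I.card * r) := this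
      _ = _ := by ring

theorem ext_rank (F : Type) [Field F] [Algebra (ZMod 2) F] {m : ℕ} {J : Type} [DecidableEq J]
    [Fintype J] (T : MultilinearMap (ZMod 2) (fun _ : J => (Fin m → ZMod 2)) (ZMod 2))
    (T' : MultilinearMap F (fun _ : J => (Fin m → F)) F)
    (hTT' : ∀ x : J → Fin m → ZMod 2,
      T' (fun j i => algebraMap (ZMod 2) F (x j i)) = algebraMap (ZMod 2) F (T x))
    {p q : J} (hpq : p ≠ q) (r : ℕ) (hr : ∀ x, rk (bil T hpq x) ≤ r) (x : J → Fin m → F) :
    rk (bil T' hpq x) ≤ 4 ^ (Fintype.card J - 2) * r := by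
  classical
  have h := ext_rank_aux F T T' hTT' hpq r hr (Finset.univ \ {p, q}) (by simp) (by simp) x
    (fun j hj hp hq => by simp [hp, hq] at hj)
  rwa [Finset.card_sdiff_of_subset (Finset.subset_univ _), Finset.card_univ,
      Finset.card_pair hpq] at h

end Pool.Agent.Work.MP_79d924_lc
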