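import Pool.Agent.Work.MP_79d924_lc.SymKill
import Pool.Agent.Work.MP_79d924_lc.ExtForm
import Pool.Agent.Work.MP_79d924_lc.ExtRank

/-!
Module BaseKill (uses SymKill, ExtForm, ExtRank).

`base_kill`: take `F = GaloisField 2 e` (`e ≠ 0`, since `3 ≤ 2 ^ e`), `card F = 2 ^ e`.  Extend `T`
to `T'` (`exists_ext`), `ext_rank` gives `rk (bil T' x) ≤ r' := 4 ^ (card J - 2) * r`, `sym_kill`
gives `b`; `H = {x | bil T' b (ι x) = 0}`, the kernel of the `ZMod 2`-linear map
`x ↦ bil T' b (ι x)` into `range (bil T' b)`, whose dimension over `ZMod 2` is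
`e * rk (bil T' b) ≤ e * r'`.
`base_kill'`: transport to a general finite dimensional `V` along a linear equivalence.
-/

set_option autoImplicit false

namespace Pool.Agent.Work.MP_79d924_lc

open Module

theorem base_kill {m : ℕ} {J : Type} [DecidableEq J] [Fintype J]
    (T : MultilinearMap (ZMod 2) (fun _ : J => (Fin m → ZMod 2)) (ZMod 2)) (hT : IsSym T)
    {p q : J} (hpq : p ≠ q) (r e : ℕ) (hr : ∀ x, rk (bil T hpq x) ≤ r)
    (he : 4 ^ (Fintype.card J - 2) * r + 3 ≤ 2 ^ e) :
    ∃ H : Submodule (ZMod 2) (Fin m → ZMod 2),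
      m ≤ finrank (ZMod 2) H + e * (4 ^ (Fintype.card J - 2) * r) ∧
      ∀ x : J → Fin m → ZMod 2, (∀ j, x j ∈ H) → T x = 0 := by
  classical
  have he0 : e ≠ 0 := by
    rintro rfl
    omega
  have : Fact (Nat.Prime 2) := ⟨Nat.prime_two⟩
  let F := GaloisField 2 e
  have : Fintype F := Fintype.ofFinite F
  have hcard : Fintype.card F = 2 ^ e := by
    rw [← Nat.card_eq_fintype_card]
    exact GaloisField.card 2 e he0
  obtain ⟨T', hT', hTT'⟩ := exists_ext F T hT
  have hrk := ext_rank F T T' hTT' hpq r hr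
  obtain ⟨b, hb⟩ := sym_kill T' hT' hpq (4 ^ (Fintype.card J - 2) * r) hrk (by rw [hcard]; exact he)
  let R := LinearMap.range (bil T' hpq b)
  -- the `ZMod 2`-linear map
  let φ : (Fin m → ZMod 2) →+ R :=
    { toFun := fun x => ⟨bil T' hpq b (emb F x), ⟨_, rfl⟩⟩
      map_zero' := by apply Subtype.ext; simp
      map_add' := fun x y => by apply Subtype.ext; simp }
  let φ' : (Fin m → ZMod 2) →ₗ[ZMod 2] R := φ.toZModLinearMap 2
  refine ⟨LinearMap.ker φ', ?_, ?_⟩
  · have h1 := LinearMap.finrank_range_add_finrank_ker φ'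
    have h2 : finrank (ZMod 2) (Fin m → ZMod 2) = m := by simp
    have h3 : finrank (ZMod 2) (LinearMap.range φ') ≤ finrank (ZMod 2) R :=
      Submodule.finrank_le _
    have hfree : Module.Free F R := Module.Free.of_divisionRing F R
    have h4 : finrank (ZMod 2) R = finrank (ZMod 2) F * finrank F R :=
      (Module.finrank_mul_finrank (ZMod 2) F R).symm
    have h5 : finrank (ZMod 2) F = e := GaloisField.finrank 2 he0
    have h6 : finrank F R ≤ 4 ^ (Fintype.card J - 2) * r := hrk b
    have h7 := Nat.mul_le_mul_left e h6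
    rw [h5] at h4
    omega
  · intro x hx
    have h1 : T' (fun j => emb F (x j)) = 0 := by
      apply hb
      intro j
      have h2 : φ' (x j) = 0 := hx j
      exact congrArg Subtype.val h2
    have h3 : algebraMap (ZMod 2) F (T x) = 0 := by
      rw [← hTT']
      exact h1
    exact (map_eq_zero (algebraMap (ZMod 2) F)).mp h3

theorem base_kill' {V : Type} [AddCommGroup V] [Module (ZMod 2) V] [FiniteDimensional (ZMod 2) V]
    {J : Type} [DecidableEq J] [Fintype J]
    (T : MultilinearMap (ZMod 2) (fun _ : J => V) (ZMod 2)) (hT : IsSym T)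
    {p q : J} (hpq : p ≠ q) (r e : ℕ) (hr : ∀ x, rk (bil T hpq x) ≤ r)
    (he : 4 ^ (Fintype.card J - 2) * r + 3 ≤ 2 ^ e) :
    ∃ H : Submodule (ZMod 2) V,
      finrank (ZMod 2) V ≤ finrank (ZMod 2) H + e * (4 ^ (Fintype.card J - 2) * r) ∧
      ∀ x : J → V, (∀ j, x j ∈ H) → T x = 0 := by
  classical
  let E : (Fin (finrank (ZMod 2) V) → ZMod 2) ≃ₗ[ZMod 2] V :=
    (Module.finBasis (ZMod 2) V).equivFun.symm
  let T₀ := T.compLinearMap (fun _ => (E : (Fin (finrank (ZMod 2) V) → ZMod 2) →ₗ[ZMod 2] V))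
  have hT₀ : IsSym T₀ := by
    intro σ x
    exact hT σ (fun j => E (x j))
  have hr₀ : ∀ x, rk (bil T₀ hpq x) ≤ r := by
    intro x
    refine le_trans ?_ (hr (fun j => E (x j)))
    -- `bil T₀ x = (dual map of E) ∘ bil T (E x) ∘ E`
    have h1 : bil T₀ hpq x = ((LinearMap.lcomp (ZMod 2) (ZMod 2)
        (E : (Fin (finrank (ZMod 2) V) → ZMod 2) →ₗ[ZMod 2] V)).comp
        (bil T hpq (fun j => E (x j)))).comp
        (E : (Fin (finrank (ZMod 2) V) → ZMod 2) →ₗ[ZMod 2] V) := by
      refine LinearMap.ext fun u => LinearMap.ext fun v => ?_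
      rw [bil_apply]
      show T (fun j => E (Function.update (Function.update x p u) q v j))
        = bil T hpq (fun j => E (x j)) (E u) (E v)
      rw [bil_apply]
      congr 1
      ext j : 1
      by_cases hq : j = q
      · subst hq; simp
      · rw [Function.update_of_ne hq, Function.update_of_ne hq]
        by_cases hp : j = p
        · subst hp; simp
        · rw [Function.update_of_ne hp, Function.update_of_ne hp]
    unfold rk
    rw [h1]
    calc _ ≤ finrank (ZMod 2) (LinearMap.range ((LinearMap.lcomp (ZMod 2) (ZMod 2)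
        (E : (Fin (finrank (ZMod 2) V) → ZMod 2) →ₗ[ZMod 2] V)).comp
        (bil T hpq (fun j => E (x j))))) :=
          Submodule.finrank_mono (LinearMap.range_comp_le_range _ _)
      _ ≤ _ := by
          rw [LinearMap.range_comp]
          exact Submodule.finrank_map_le _ _
  obtain ⟨H₀, h1, h2⟩ := base_kill T₀ hT₀ hpq r e hr₀ he
  refine ⟨H₀.map (E : (Fin (finrank (ZMod 2) V) → ZMod 2) →ₗ[ZMod 2] V), ?_, ?_⟩
  · have h3 : finrank (ZMod 2) (H₀.map (E : (Fin (finrank (ZMod 2) V) → ZMod 2) →ₗ[ZMod 2] V))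
        = finrank (ZMod 2) H₀ := LinearEquiv.finrank_map_eq E H₀
    rw [h3]
    exact h1
  · intro x hx
    have h4 : ∀ j, E.symm (x j) ∈ H₀ := by
      intro j
      obtain ⟨y, hy, hyx⟩ := hx j
      have : E y = x j := hyx
      rw [← this, LinearEquiv.symm_apply_apply]
      exact hy
    have h5 := h2 (fun j => E.symm (x j)) h4
    have h6 : T₀ (fun j => E.symm (x j)) = T x := by
      show T (fun j => E (E.symm (x j))) = T x
      simp
    rw [← h6]
    exact h5

end Pool.Agent.Work.MP_79d924_lc
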