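import Pool.Agent.Work.MP_79d924_lc.Tree

set_option autoImplicit false

namespace Pool.Agent.Work.MP_79d924_lc

open Module

theorem cst_le (k : ℕ) : ∀ d, cst k d ≤ 1 + 8 ^ d * (k * (d + Nat.log 2 (k + 1))) := by
  intro d
  induction d with
  | zero => simp [cst]
  | succ d ih =>
    rcases d with _ | d
    · simp [cst]
    · have h0 : cst k (d + 1 + 1) =
          (Nat.log 2 (4 ^ d * (2 ^ (d + 1) * k) + 3) + 1) * (4 ^ d * (2 ^ (d + 1) * k))
          + cst k (d + 1) := rfl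
      rw [h0]
      set L := Nat.log 2 (k + 1) with hL
      have h48 : 4 ^ d * (2 ^ (d + 1) * k) = 2 * (8 ^ d * k) := by
        have : (8 : ℕ) ^ d = 4 ^ d * 2 ^ d := by rw [← mul_pow]; norm_num
        rw [this, pow_succ]; ring
      rw [h48]
      have hk : k + 1 < 2 ^ (L + 1) := Nat.lt_pow_succ_log_self (by norm_num) _
      have hlog : Nat.log 2 (2 * (8 ^ d * k) + 3) ≤ 3 * d + 2 + L := by
        apply Nat.le_of_lt_succ
        apply Nat.log_lt_of_lt_pow (by omega)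
        have h8 : (8 : ℕ) ^ d = 2 ^ (3 * d) := by rw [pow_mul]; norm_num
        have hpos : 1 ≤ 8 ^ d := Nat.one_le_pow _ _ (by norm_num)
        calc 2 * (8 ^ d * k) + 3 ≤ 4 * (8 ^ d * (k + 1)) := by nlinarith
          _ < 4 * (8 ^ d * 2 ^ (L + 1)) := by
              have : 8 ^ d * (k + 1) < 8 ^ d * 2 ^ (L + 1) :=
                Nat.mul_lt_mul_of_pos_left hk (by positivity)
              omega
          _ = 2 ^ (3 * d + 2 + L).succ := by
              rw [h8, show (4 : ℕ) = 2 ^ 2 by norm_num, ← pow_add, ← pow_add]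
              congr 1; omega
      have h8s : (8 : ℕ) ^ (d + 1 + 1) = 64 * 8 ^ d := by rw [pow_succ, pow_succ]; ring
      have h8s' : (8 : ℕ) ^ (d + 1) = 8 * 8 ^ d := by rw [pow_succ]; ring
      have ih' : cst k (d + 1) ≤ 1 + 8 * 8 ^ d * (k * (d + 1 + L)) := by rw [← h8s']; exact ih
      have hmul : (Nat.log 2 (2 * (8 ^ d * k) + 3) + 1) * (2 * (8 ^ d * k))
          ≤ (3 * d + 2 + L + 1) * (2 * (8 ^ d * k)) := Nat.mul_le_mul_right _ (by omega)
      calc (Nat.log 2 (2 * (8 ^ d * k) + 3) + 1) * (2 * (8 ^ d * k)) + cst k (d + 1)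
          ≤ (3 * d + 2 + L + 1) * (2 * (8 ^ d * k)) + (1 + 8 * 8 ^ d * (k * (d + 1 + L))) :=
            Nat.add_le_add hmul ih'
        _ ≤ 1 + 64 * 8 ^ d * (k * (d + 1 + 1 + L)) := by
            have : (3 * d + 2 + L + 1) * 2 + 8 * (d + 1 + L) ≤ 64 * (d + 1 + 1 + L) := by omega
            have h2 := Nat.mul_le_mul_right (8 ^ d * k) this
            nlinarith [h2]
        _ = 1 + 8 ^ (d + 1 + 1) * (k * (d + 1 + 1 + L)) := by rw [h8s]

theorem poly_bound (D k d : ℕ) (h : 2 ^ d ≤ (k + 1) ^ D) :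
    1 + 8 ^ d * (k * (d + Nat.log 2 (k + 1))) ≤ 3 * (k + 1) ^ (4 * D + 2) := by
  set K := k + 1 with hK
  have hK1 : 1 ≤ K := by omega
  have h8 : (8 : ℕ) ^ d ≤ K ^ (3 * D) := by
    calc (8 : ℕ) ^ d = (2 ^ d) ^ 3 := by rw [← pow_mul, mul_comm, pow_mul]; norm_num
      _ ≤ (K ^ D) ^ 3 := Nat.pow_le_pow_left h 3
      _ = K ^ (3 * D) := by rw [← pow_mul, mul_comm]
  have hd : d ≤ K ^ D := (Nat.lt_two_pow_self).le.trans h
  have hlog : Nat.log 2 K ≤ K := Nat.log_le_self 2 K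
  have hdl : d + Nat.log 2 K ≤ 2 * K ^ (D + 1) := by
    have h1 : K ^ D ≤ K ^ (D + 1) := Nat.pow_le_pow_right hK1 (by omega)
    have h2 : K ≤ K ^ (D + 1) := by
      calc K = K ^ 1 := (pow_one _).symm
        _ ≤ K ^ (D + 1) := Nat.pow_le_pow_right hK1 (by omega)
    omega
  have hk : k ≤ K := by omega
  have hone : 1 ≤ K ^ (4 * D + 2) := Nat.one_le_pow _ _ hK1
  calc 1 + 8 ^ d * (k * (d + Nat.log 2 K)) ≤ 1 + K ^ (3 * D) * (K * (2 * K ^ (D + 1))) := by
        have := Nat.mul_le_mul h8 (Nat.mul_le_mul hk hdl)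
        omega
    _ = 1 + 2 * K ^ (4 * D + 2) := by
        congr 1
        have : 4 * D + 2 = 3 * D + 1 + (D + 1) := by omega
        rw [this, pow_add, pow_add, pow_one]; ring
    _ ≤ 3 * K ^ (4 * D + 2) := by omega

end Pool.Agent.Work.MP_79d924_lc
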