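import Pool.Agent.Work.MP_79d924_lc.Defs

/-!
Module Codim.

`exists_rows`: a subspace `W` of `Fin n → ZMod 2` with `n ≤ finrank W + c` is the common kernel of
`c' ≤ c` linear functionals `x ↦ ∑ i, A j i * x i` (dual annihilator).

`SN_of_granular`: if all Fourier coefficients of the `0/1`-valued `f` are integer multiples of
`2 ^ (-k)`, then `sgn ∘ f = 1 - 2 f` has spectral norm at most `2 ^ k`.  With
`F̂(a) = 2 ^ (-n) * ∑ x, sgn (f x) * (-1)^{a·x}` (for `k ≥ 1` an integer multiple of `2 ^ (-(k-1))`,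
for `k = 0` still of `2 ^ (-k)`, anyway an integer multiple of `2 ^ (-k)`), Fourier inversion gives
`sgn (f x) = ∑ a, F̂(a) (-1)^{a·x}`, Parseval gives `∑ a, F̂(a) ^ 2 = 1` and
`|F̂(a)| ≤ 2 ^ k * F̂(a) ^ 2` since `2 ^ k * F̂(a)` is an integer.
-/

set_option autoImplicit false

namespace Pool.Agent.Work.MP_79d924_lc

open Module

theorem exists_rows {n c : ℕ} (W : Submodule (ZMod 2) (Fin n → ZMod 2))
    (h : n ≤ finrank (ZMod 2) W + c) :
    ∃ (d : ℕ) (A : Fin d → Fin n → ZMod 2), d ≤ c ∧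
      ∀ x : Fin n → ZMod 2, (∀ j, ∑ i, A j i * x i = 0) → x ∈ W := by
  classical
  have hfr := Submodule.finrank_quotient_add_finrank W
  rw [Module.finrank_fin_fun] at hfr
  let b := Module.finBasis (ZMod 2) ((Fin n → ZMod 2) ⧸ W)
  refine ⟨finrank (ZMod 2) ((Fin n → ZMod 2) ⧸ W),
    fun j i => b.coord j (W.mkQ (Pi.single i 1)), by omega, ?_⟩
  intro x hx
  have hx' : W.mkQ x = 0 := by
    apply b.ext_elem
    intro j
    have h1 : x = ∑ i, x i • (Pi.single i (1 : ZMod 2) : Fin n → ZMod 2) := by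
      ext l
      simp [Pi.single_apply]
    have h2 : b.coord j (W.mkQ x) = ∑ i, b.coord j (W.mkQ (Pi.single i 1)) * x i := by
      conv_lhs => rw [h1]
      rw [map_sum, map_sum]
      refine Finset.sum_congr rfl fun i _ => ?_
      rw [map_smul, map_smul, smul_eq_mul, mul_comm]
    have h3 := hx j
    rw [← h2] at h3
    rw [map_zero, Finsupp.zero_apply]
    exact h3
  rw [← Submodule.ker_mkQ W]
  exact hx'

private noncomputable def chi {n : ℕ} (a x : Fin n → ZMod 2) : ℝ :=
  (-1 : ℝ) ^ ((∑ i, a i * x i).val)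

private theorem neg_pow_val_add (s t : ZMod 2) :
    (-1 : ℝ) ^ ((s + t).val) = (-1 : ℝ) ^ s.val * (-1 : ℝ) ^ t.val := by
  have h : ∀ z : ZMod 2, z = 0 ∨ z = 1 := by decide
  have h11 : (1 + 1 : ZMod 2) = 0 := by decide
  have v0 : (0 : ZMod 2).val = 0 := by decide
  have v1 : (1 : ZMod 2).val = 1 := by decide
  rcases h s with rfl | rfl <;> rcases h t with rfl | rfl
  · rw [add_zero, v0]; norm_num
  · rw [zero_add, v0, v1]; norm_num
  · rw [add_zero, v0, v1]; norm_num
  · rw [h11, v0, v1]; norm_num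

private theorem chi_add_right {n : ℕ} (a x y : Fin n → ZMod 2) :
    chi a (x + y) = chi a x * chi a y := by
  unfold chi
  rw [← neg_pow_val_add]
  congr 2
  rw [← Finset.sum_add_distrib]
  refine Finset.sum_congr rfl fun i _ => ?_
  rw [Pi.add_apply, mul_add]

private theorem chi_comm {n : ℕ} (a x : Fin n → ZMod 2) : chi a x = chi x a := by
  unfold chi
  congr 2
  exact Finset.sum_congr rfl fun i _ => mul_comm _ _

private theorem chi_sq {n : ℕ} (a x : Fin n → ZMod 2) : chi a x * chi a x = 1 := by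
  unfold chi
  rw [← pow_add, ← two_mul, pow_mul]
  norm_num

private theorem chi_zero {n : ℕ} (a : Fin n → ZMod 2) : chi a 0 = 1 := by
  unfold chi
  simp

private theorem chi_single {n : ℕ} (x : Fin n → ZMod 2) (i : Fin n) (hi : x i = 1) :
    chi x (Pi.single i 1) = -1 := by
  have h : ∑ j, x j * (Pi.single i (1 : ZMod 2) : Fin n → ZMod 2) j = 1 := by
    rw [Finset.sum_eq_single i]
    · rw [Pi.single_eq_same, hi, one_mul]
    · intro j _ hj
      rw [Pi.single_eq_of_ne hj, mul_zero]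
    · intro h
      exact absurd (Finset.mem_univ i) h
  have v1 : (1 : ZMod 2).val = 1 := by decide
  unfold chi
  rw [h, v1, pow_one]

private theorem sum_neg_self {α : Type} [Fintype α] (e : α ≃ α) (g : α → ℝ)
    (h : ∀ a, g (e a) = -g a) : ∑ a, g a = 0 := by
  have h1 := Equiv.sum_comp e g
  simp only [h, Finset.sum_neg_distrib] at h1
  linarith

private theorem sum_chi {n : ℕ} (x : Fin n → ZMod 2) (hx : x ≠ 0) :
    ∑ a : Fin n → ZMod 2, chi a x = 0 := by
  obtain ⟨i, hi⟩ := Function.ne_iff.mp hx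
  have hi1 : x i = 1 := by
    have h : ∀ z : ZMod 2, z = 0 ∨ z = 1 := by decide
    rcases h (x i) with h | h
    · exact absurd h hi
    · exact h
  refine sum_neg_self (Equiv.addRight (Pi.single i (1 : ZMod 2))) (fun a => chi a x) ?_
  intro a
  simp only [Equiv.coe_addRight]
  rw [chi_comm, chi_add_right, chi_comm x a, chi_single x i hi1, mul_neg_one]

private theorem sum_chi_zero {n : ℕ} :
    ∑ a : Fin n → ZMod 2, chi a (0 : Fin n → ZMod 2) = (2 : ℝ) ^ n := by
  simp only [chi_zero]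
  simp [ZMod.card]

private theorem add_eq_zero' {n : ℕ} (x y : Fin n → ZMod 2) : x + y = 0 ↔ x = y := by
  have h : ∀ s t : ZMod 2, s + t = 0 ↔ s = t := by decide
  simp only [funext_iff, Pi.add_apply, Pi.zero_apply, h]

private theorem ortho {n : ℕ} (x y : Fin n → ZMod 2) :
    ∑ a : Fin n → ZMod 2, chi a x * chi a y = if x = y then (2 : ℝ) ^ n else 0 := by
  simp only [← chi_add_right]
  split_ifs with h
  · rw [(add_eq_zero' x y).mpr h, sum_chi_zero]
  · exact sum_chi _ fun h' => h ((add_eq_zero' x y).mp h')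

theorem SN_of_granular {n k : ℕ} (f : (Fin n → ZMod 2) → Bool)
    (h : ∀ a : Fin n → ZMod 2, ∃ m : ℤ,
        (2 : ℝ) ^ k * (∑ x : Fin n → ZMod 2,
          (if f x then (1 : ℝ) else 0) * (-1 : ℝ) ^ ((∑ i, a i * x i).val))
          = (m : ℝ) * (2 : ℝ) ^ n) :
    SN (fun x => sgn (if f x then 1 else 0)) ((2 : ℝ) ^ k) := by
  classical
  set G : (Fin n → ZMod 2) → ℝ := fun x => sgn (if f x then 1 else 0) with hG
  have hG1 : ∀ x, G x = 1 - 2 * (if f x then (1 : ℝ) else 0) := by
    intro x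
    have h10 : (1 : ZMod 2) ≠ 0 := by decide
    cases hfx : f x
    · simp [hG, sgn, hfx]
    · simp [hG, sgn, hfx]
      norm_num
  have hG2 : ∀ x, G x * G x = 1 := by
    intro x
    rw [hG1]
    split_ifs <;> norm_num
  have h2n : (2 : ℝ) ^ n ≠ 0 := by positivity
  let c : (Fin n → ZMod 2) → ℝ := fun a => (∑ x, G x * chi a x) / (2 : ℝ) ^ n
  have hinv : ∀ x, G x = ∑ a, c a * chi a x := by
    intro x
    have : ∑ a, c a * chi a x = (∑ y, G y * ∑ a, chi a y * chi a x) / (2 : ℝ) ^ n := by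
      simp only [c, div_mul_eq_mul_div, ← Finset.sum_div, Finset.sum_mul, Finset.mul_sum]
      rw [Finset.sum_comm]
      congr 1
      refine Finset.sum_congr rfl fun y _ => Finset.sum_congr rfl fun a _ => ?_
      ring
    rw [this]
    simp only [ortho]
    simp
  have hpars : ∑ a, c a ^ 2 = 1 := by
    have h1 : ∑ a, c a ^ 2 = (∑ x, G x * ∑ a, c a * chi a x) / (2 : ℝ) ^ n := by
      have : ∀ a, c a ^ 2 = (∑ x, G x * (c a * chi a x)) / (2 : ℝ) ^ n := by
        intro a
        rw [sq]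
        conv_lhs => enter [2]; simp only [c]
        rw [mul_div_assoc', Finset.mul_sum]
        congr 1
        refine Finset.sum_congr rfl fun y _ => ?_
        ring
      simp only [this, ← Finset.sum_div]
      rw [Finset.sum_comm]
      simp only [Finset.mul_sum]
    rw [h1]
    simp only [← hinv, hG2]
    simp [ZMod.card]
  have hint : ∀ a, ∃ m : ℤ, (2 : ℝ) ^ k * c a = m := by
    intro a
    obtain ⟨m, hm⟩ := h a
    have e1 : ∑ x, G x * chi a x = (∑ x, chi a x) -
        2 * ∑ x : Fin n → ZMod 2, (if f x then (1 : ℝ) else 0) * chi a x := by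
      rw [Finset.mul_sum, ← Finset.sum_sub_distrib]
      refine Finset.sum_congr rfl fun x _ => ?_
      rw [hG1]
      ring
    have e2 : ∑ x, chi a x = if a = 0 then (2 : ℝ) ^ n else 0 := by
      simp only [chi_comm a]
      split_ifs with ha
      · rw [ha, sum_chi_zero]
      · exact sum_chi a ha
    have hm' : (2 : ℝ) ^ k * ∑ x : Fin n → ZMod 2, (if f x then (1 : ℝ) else 0) * chi a x =
        (m : ℝ) * (2 : ℝ) ^ n := hm
    refine ⟨(if a = 0 then 2 ^ k else 0) - 2 * m, ?_⟩
    simp only [c]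
    rw [e1, e2, mul_div_assoc', div_eq_iff h2n, mul_sub, ← mul_assoc, mul_comm _ (2 : ℝ),
      mul_assoc 2, hm']
    split_ifs
    · push_cast
      ring
    · push_cast
      ring
  have habs : ∀ a, |c a| ≤ (2 : ℝ) ^ k * c a ^ 2 := by
    intro a
    obtain ⟨m, hm⟩ := hint a
    have h2k : (0 : ℝ) < 2 ^ k := by positivity
    by_cases hm0 : m = 0
    · rw [hm0] at hm
      have : c a = 0 := by
        have := mul_eq_zero.mp (hm.trans (by simp))
        rcases this with h | h
        · exact absurd h h2k.ne'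
        · exact h
      rw [this]
      simp
    · have h1 : (1 : ℝ) ≤ |(m : ℝ)| := by
        exact_mod_cast Int.one_le_abs hm0
      rw [← hm, abs_mul, abs_of_pos h2k] at h1
      have h3 : |c a| * 1 ≤ |c a| * (2 ^ k * |c a|) :=
        mul_le_mul_of_nonneg_left h1 (abs_nonneg _)
      have h4 : |c a| * (2 ^ k * |c a|) = 2 ^ k * c a ^ 2 := by
        rw [← sq_abs (c a)]
        ring
      linarith
  refine ⟨Fin n → ZMod 2, inferInstance, c, chi, ?_, hinv, ?_⟩
  · intro a
    exact ⟨chi_add_right a, chi_sq a⟩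
  · calc ∑ a, |c a| ≤ ∑ a, (2 : ℝ) ^ k * c a ^ 2 := Finset.sum_le_sum fun a _ => habs a
      _ = 2 ^ k := by rw [← Finset.mul_sum, hpars, mul_one]

end Pool.Agent.Work.MP_79d924_lc
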