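import Mathlib

/-!
Definitions for MP_79d924_lc (kill number of Boolean functions of bounded granularity).
-/

set_option autoImplicit false

namespace Pool.Agent.Work.MP_79d924_lc

open Module

/-- discrete derivative in direction `a` -/
def dd {V : Type*} [Add V] (a : V) (p : V → ZMod 2) : V → ZMod 2 :=
  fun x => p (x + a) + p x

/-- all `n`-fold discrete derivatives of `p` vanish, i.e. `p` has degree `< n` -/
def DegLT {V : Type*} [Add V] : ℕ → (V → ZMod 2) → Prop
  | 0, p => ∀ x, p x = 0
  | (n + 1), p => ∀ a, DegLT n (dd a p)

/-- the iterated difference `∑_{S ⊆ J} p (x + ∑_{i ∈ S} a i)` -/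
def Dl {V ι : Type*} [AddCommGroup V] (p : V → ZMod 2) (J : Finset ι) (a : ι → V) (x : V) :
    ZMod 2 :=
  ∑ S ∈ J.powerset, p (x + ∑ i ∈ S, a i)

/-- the sign `(-1)^z` -/
noncomputable def sgn (z : ZMod 2) : ℝ := if z = 0 then 1 else -1

/-- a real character of an additive group of exponent two -/
structure IsChar {V : Type*} [Add V] (χ : V → ℝ) : Prop where
  add : ∀ x y, χ (x + y) = χ x * χ y
  sq : ∀ x, χ x * χ x = 1

/-- `G` is a combination of characters with total coefficient weight at most `A`
(spectral norm at most `A`) -/
def SN {V : Type*} [Add V] (G : V → ℝ) (A : ℝ) : Prop :=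
  ∃ (ι : Type) (_ : Fintype ι) (c : ι → ℝ) (χ : ι → V → ℝ),
    (∀ i, IsChar (χ i)) ∧ (∀ x, G x = ∑ i, c i * χ i x) ∧ ∑ i, |c i| ≤ A

section bil

variable {F : Type*} [Field F] {V : Type*} [AddCommGroup V] [Module F V]
  {J : Type*} [DecidableEq J]

/-- The bilinear slice of a multilinear form `T`: all arguments except those at `p` and `q`
are taken from `x`. (For `p ≠ q`.) -/
def bil (T : MultilinearMap F (fun _ : J => V) F) {p q : J} (hpq : p ≠ q) (x : J → V) :
    V →ₗ[F] V →ₗ[F] F :=
  LinearMap.mk₂ F (fun u v => T (Function.update (Function.update x p u) q v))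
    (by
      intro u u' v
      simp only [Function.update_comm hpq]
      exact T.map_update_add _ _ _ _)
    (by
      intro c u v
      simp only [Function.update_comm hpq]
      simp only [T.map_update_smul])
    (by
      intro u v v'
      exact T.map_update_add _ _ _ _)
    (by
      intro c u v
      simp only [T.map_update_smul])

omit [DecidableEq J] in
/-- symmetry of a multilinear form -/
def IsSym (T : MultilinearMap F (fun _ : J => V) F) : Prop :=
  ∀ (σ : Equiv.Perm J) (x : J → V), T (fun j => x (σ j)) = T x

theorem bil_apply (T : MultilinearMap F (fun _ : J => V) F) {p q : J} (hpq : p ≠ q)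
    (x : J → V) (u v : V) :
    bil T hpq x u v = T (Function.update (Function.update x p u) q v) := rfl

/-- rank of a linear map -/
noncomputable def rk {F V W : Type*} [Field F] [AddCommGroup V] [Module F V] [AddCommGroup W]
    [Module F W] (f : V →ₗ[F] W) : ℕ := finrank F (LinearMap.range f)

end bil

end Pool.Agent.Work.MP_79d924_lc
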