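import Pool.Agent.Work.MP_79d924_lc.Defs

/-!
Module DegLem: elementary facts on discrete derivatives.
-/

set_option autoImplicit false

namespace Pool.Agent.Work.MP_79d924_lc

open Module

variable {V : Type} [AddCommGroup V]

theorem Dl_insert {ι : Type} [DecidableEq ι] (p : V → ZMod 2) (J : Finset ι) (j : ι) (hj : j ∉ J)
    (a : ι → V) (x : V) : Dl p (insert j J) a x = Dl p J a x + Dl p J a (x + a j) := by
  unfold Dl
  rw [Finset.sum_powerset_insert hj]
  congr 1
  refine Finset.sum_congr rfl fun S hS => ?_
  have hjS : j ∉ S := fun h => hj (Finset.mem_powerset.mp hS h)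
  rw [Finset.sum_insert hjS, add_assoc]

theorem Dl_dd {ι : Type} (p : V → ZMod 2) (J : Finset ι) (a : ι → V) (u x : V) :
    Dl (dd u p) J a x = dd u (Dl p J a) x := by
  unfold Dl dd
  rw [← Finset.sum_add_distrib]
  refine Finset.sum_congr rfl fun S _ => ?_
  rw [add_right_comm]

theorem degLT_Dl {ι : Type} (n : ℕ) (J : Finset ι) (a : ι → V) (p : V → ZMod 2)
    (h : DegLT (J.card + n) p) : DegLT n (Dl p J a) := by
  classical
  induction J using Finset.induction_on generalizing p with
  | empty =>
    have : Dl p ∅ a = p := by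
      funext x
      simp [Dl]
    rw [this]
    simpa using h
  | insert j J hj ih =>
    have h1 : Dl p (insert j J) a = Dl (dd (a j) p) J a := by
      funext x
      rw [Dl_insert p J j hj, Dl_dd, dd, add_comm]
    rw [h1]
    apply ih
    rw [Finset.card_insert_of_notMem hj, add_right_comm] at h
    exact h (a j)

theorem Dl_map {ι ι' : Type} (e : ι ↪ ι') (p : V → ZMod 2) (J : Finset ι) (a : ι' → V) :
    ∀ x, Dl p (J.map e) a x = Dl p J (fun i => a (e i)) x := by
  classical
  induction J using Finset.induction_on with
  | empty => intro x; simp [Dl]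
  | insert j J hj ih =>
    intro x
    rw [Finset.map_insert, Dl_insert, Dl_insert _ _ _ hj, ih, ih]
    simpa using hj

theorem degLT_of_fin (n : ℕ) (p : V → ZMod 2)
    (h : ∀ (a : Fin n → V) (x : V), Dl p Finset.univ a x = 0) : DegLT n p := by
  classical
  induction n generalizing p with
  | zero =>
    intro x
    have := h (fun i => i.elim0) x
    simpa [Dl] using this
  | succ n ih =>
    intro u
    apply ih
    intro a x
    have h1 := h (Fin.cons u a) x
    rw [Fin.univ_succ, Finset.cons_eq_insert, Dl_insert, Dl_map, Dl_map] at h1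
    · have h2 : (fun i => (Fin.cons u a : Fin (n + 1) → V)
          ((⟨Fin.succ, Fin.succ_injective n⟩ : Fin n ↪ Fin (n + 1)) i)) = a := by
        funext i
        simp
      rw [h2] at h1
      rw [Dl_dd, dd, add_comm]
      simpa using h1
    · simp

theorem Dl_congr {ι : Type} (p : V → ZMod 2) (J : Finset ι) (a b : ι → V)
    (h : ∀ i ∈ J, a i = b i) : Dl p J a = Dl p J b := by
  funext x
  unfold Dl
  refine Finset.sum_congr rfl fun S hS => ?_
  congr 2
  exact Finset.sum_congr rfl fun i hi => h i (Finset.mem_powerset.mp hS hi)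

/-- difference in one slot -/
theorem Dl_update {ι : Type} [DecidableEq ι] (p : V → ZMod 2) (J : Finset ι) (j : ι) (hj : j ∈ J)
    (a : ι → V) (u x : V) :
    Dl p J (Function.update a j u) x = dd u (Dl p (J.erase j) a) x := by
  conv_lhs => rw [← Finset.insert_erase hj]
  rw [Dl_insert _ _ _ (Finset.notMem_erase j J)]
  have h1 : Dl p (J.erase j) (Function.update a j u) = Dl p (J.erase j) a := by
    apply Dl_congr
    intro i hi
    rw [Function.update_of_ne (Finset.ne_of_mem_erase hi)]
  rw [h1, Function.update_self, dd, add_comm]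

theorem Dl_const {ι : Type} (p : V → ZMod 2) (J : Finset ι) (a : ι → V)
    (h : DegLT (J.card + 1) p) (x y : V) : Dl p J a x = Dl p J a y := by
  have h1 := degLT_Dl 1 J a p h (x - y) y
  simp only [dd] at h1
  rw [add_sub_cancel] at h1
  exact CharTwo.add_eq_zero.mp h1

theorem exists_form [Module (ZMod 2) V] (d : ℕ) (f : V → ZMod 2) (hf : DegLT (d + 1) f) :
    ∃ T : MultilinearMap (ZMod 2) (fun _ : Fin d => V) (ZMod 2), IsSym T ∧
      (∀ (a : Fin d → V) (x : V), T a = Dl f Finset.univ a x) ∧
      (∀ {p q : Fin d} (hpq : p ≠ q) (x : Fin d → V) (u v y : V),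
        bil T hpq x u v = dd u (dd v (Dl f (Finset.univ \ {p, q}) x)) y) := by
  classical
  have hcard : ∀ j : Fin d, (Finset.univ.erase j : Finset (Fin d)).card + 2 = d + 1 := by
    intro j
    rw [Finset.card_erase_of_mem (Finset.mem_univ j), Finset.card_univ, Fintype.card_fin]
    have := j.2
    omega
  have hg : ∀ (j : Fin d) (a : Fin d → V), DegLT 2 (Dl f (Finset.univ.erase j) a) := by
    intro j a
    apply degLT_Dl
    rw [hcard j]
    exact hf
  have hadd : ∀ (j : Fin d) (a : Fin d → V) (u v : V),
      Dl f Finset.univ (Function.update a j (u + v)) 0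
        = Dl f Finset.univ (Function.update a j u) 0 + Dl f Finset.univ (Function.update a j v) 0 := by
    intro j a u v
    rw [Dl_update _ _ _ (Finset.mem_univ j), Dl_update _ _ _ (Finset.mem_univ j),
      Dl_update _ _ _ (Finset.mem_univ j)]
    have h2 := hg j a u v 0
    simp only [dd] at h2 ⊢
    have h3 : ∀ p q r s : ZMod 2, p + q + (r + s) = 0 → p + s = (r + s) + (q + s) := by decide
    have h4 : (0 : V) + (u + v) = 0 + v + u := by abel
    rw [h4]
    exact h3 _ _ _ _ h2
  have hzero : ∀ (j : Fin d) (a : Fin d → V),
      Dl f Finset.univ (Function.update a j 0) 0 = 0 := by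
    intro j a
    rw [Dl_update _ _ _ (Finset.mem_univ j), dd, add_zero]
    exact CharTwo.add_self_eq_zero _
  let T : MultilinearMap (ZMod 2) (fun _ : Fin d => V) (ZMod 2) :=
    { toFun := fun a => Dl f Finset.univ a 0
      map_update_add' := by
        intro inst a j u v
        have : inst = instDecidableEqFin d := Subsingleton.elim _ _
        subst this
        exact hadd j a u v
      map_update_smul' := by
        intro inst a j c u
        have : inst = instDecidableEqFin d := Subsingleton.elim _ _
        subst this
        have hc : c = 0 ∨ c = 1 := by revert c; decide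
        rcases hc with rfl | rfl
        · rw [zero_smul, zero_smul]
          exact hzero j a
        · rw [one_smul, one_smul] }
  have hT : ∀ a, T a = Dl f Finset.univ a 0 := fun a => rfl
  have hTx : ∀ (a : Fin d → V) (x : V), T a = Dl f Finset.univ a x := by
    intro a x
    rw [hT]
    apply Dl_const
    rw [Finset.card_univ, Fintype.card_fin]
    exact hf
  refine ⟨T, ?_, hTx, ?_⟩
  · intro σ x
    rw [hT, hT]
    have h1 := Dl_map (σ.toEmbedding) f Finset.univ x 0
    rw [Finset.map_univ_equiv] at h1
    exact h1.symm
  · intro p q hpq x u v y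
    rw [bil_apply, hTx _ y, Dl_update _ _ _ (Finset.mem_univ q)]
    have hp : p ∈ (Finset.univ.erase q : Finset (Fin d)) :=
      Finset.mem_erase.mpr ⟨hpq, Finset.mem_univ p⟩
    have h1 : Dl f (Finset.univ.erase q) (Function.update x p u)
        = dd u (Dl f ((Finset.univ.erase q).erase p) x) := by
      funext z
      exact Dl_update _ _ _ hp x u z
    rw [h1]
    have h2 : ((Finset.univ.erase q).erase p : Finset (Fin d)) = Finset.univ \ {p, q} := by
      ext i; simp
    rw [h2]
    simp only [dd]
    have h3 : y + v + u = y + u + v := by abel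
    rw [h3]
    ring

end Pool.Agent.Work.MP_79d924_lc
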