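import Pool.Agent.Work.MP_79d924_lc.Defs

/-!
Module DegPoly: a polynomial of total degree `≤ d` over `ZMod 2` has `DegLT (d + 1)` as a function.
-/

set_option autoImplicit false

namespace Pool.Agent.Work.MP_79d924_lc

open Module

section
variable {V : Type} [AddCommGroup V]

theorem DegLT.congr {n : ℕ} {f g : V → ZMod 2} (h : DegLT n f) (hfg : ∀ x, f x = g x) :
    DegLT n g := by
  have : f = g := funext hfg
  rwa [← this]

theorem DegLT.zero : ∀ n : ℕ, DegLT n (fun _ : V => (0 : ZMod 2)) := by
  intro n
  induction n with
  | zero => intro x; rfl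
  | succ n ih =>
    intro a
    refine ih.congr fun x => ?_
    simp [dd]

theorem DegLT.add : ∀ (n : ℕ) (f g : V → ZMod 2), DegLT n f → DegLT n g →
    DegLT n (fun x => f x + g x) := by
  intro n
  induction n with
  | zero =>
    intro f g hf hg x
    show f x + g x = 0
    rw [hf x, hg x, add_zero]
  | succ n ih =>
    intro f g hf hg a
    refine (ih _ _ (hf a) (hg a)).congr fun x => ?_
    simp only [dd]
    ring

theorem DegLT.succ : ∀ (n : ℕ) (f : V → ZMod 2), DegLT n f → DegLT (n + 1) f := by
  intro n
  induction n with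
  | zero =>
    intro f hf a x
    show f (x + a) + f x = 0
    rw [hf, hf, add_zero]
  | succ n ih =>
    intro f hf a
    exact ih _ (hf a)

theorem DegLT.mono {m n : ℕ} (h : m ≤ n) (f : V → ZMod 2) (hf : DegLT m f) : DegLT n f := by
  induction h with
  | refl => exact hf
  | step _ ih => exact DegLT.succ _ _ ih

theorem DegLT.smul (n : ℕ) (c : ZMod 2) (f : V → ZMod 2) (hf : DegLT n f) :
    DegLT n (fun x => c * f x) := by
  have : c = 0 ∨ c = 1 := by revert c; decide
  rcases this with rfl | rfl
  · exact (DegLT.zero n).congr fun x => by rw [zero_mul]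
  · exact hf.congr fun x => by rw [one_mul]

theorem DegLT.shift : ∀ (n : ℕ) (f : V → ZMod 2) (b : V), DegLT n f →
    DegLT n (fun x => f (x + b)) := by
  intro n
  induction n with
  | zero => intro f b hf x; exact hf _
  | succ n ih =>
    intro f b hf a
    refine (ih _ b (hf a)).congr fun x => ?_
    simp only [dd]
    rw [add_right_comm]

end

/-- multiplication by an additive functional plus a constant raises the degree by one -/
theorem DegLT.mul_lin {V : Type} [AddCommGroup V] (l : V →+ ZMod 2) : ∀ (n : ℕ)
    (f : V → ZMod 2) (c : ZMod 2), DegLT n f → DegLT (n + 1) (fun x => (l x + c) * f x) := by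
  intro n
  induction n with
  | zero =>
    intro f c hf a x
    simp only [dd]
    rw [hf, hf, mul_zero, mul_zero, add_zero]
  | succ n ih =>
    intro f c hf a
    -- dd a ((l + c) f)(x) = (l x + c) * dd a f x + l a * f (x + a)
    have h1 := ih (dd a f) c (hf a)
    have h2 : DegLT (n + 1) (fun x => l a * f (x + a)) :=
      DegLT.smul _ _ _ (DegLT.shift _ _ a hf)
    refine (DegLT.add _ _ _ h1 h2).congr fun x => ?_
    simp only [dd, map_add]
    have h3 : ∀ p q r u v : ZMod 2, (p + q) * (u + v) + r * u = (p + r + q) * u + (p + q) * v := by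
      decide
    exact h3 _ _ _ _ _

theorem DegLT.sum {V ι : Type} [AddCommGroup V] (n : ℕ) (s : Finset ι) (f : ι → V → ZMod 2)
    (h : ∀ i ∈ s, DegLT n (f i)) : DegLT n (fun x => ∑ i ∈ s, f i x) := by
  classical
  induction s using Finset.induction_on with
  | empty => exact (DegLT.zero n).congr fun x => by simp
  | insert i s hi ih =>
    refine (DegLT.add n _ _ (h i (Finset.mem_insert_self i s))
      (ih fun j hj => h j (Finset.mem_insert_of_mem hj))).congr fun x => ?_
    rw [Finset.sum_insert hi]

theorem degLT_mono {n : ℕ} : ∀ (d : ℕ) (s : Fin n →₀ ℕ), (s.sum fun _ e => e) = d →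
    DegLT (d + 1) (fun x : Fin n → ZMod 2 => s.prod fun i e => x i ^ e) := by
  intro d
  induction d with
  | zero =>
    intro s hs
    have h0 : s = 0 := by
      ext i
      by_contra hne
      have hi : i ∈ s.support := by simpa using hne
      have := Finset.single_le_sum (f := fun i => s i) (fun _ _ => Nat.zero_le _) hi
      have hs' : ∑ i ∈ s.support, s i = 0 := hs
      have h1 : s i ≤ 0 := by rw [← hs']; exact this
      have h2 : s i ≠ 0 := by simpa using hne
      omega
    subst h0
    intro a x
    simp only [dd, Finsupp.prod_zero_index]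
    decide
  | succ d ih =>
    intro s hs
    -- choose `i` with `s i ≠ 0`
    have hne : ∃ i, s i ≠ 0 := by
      by_contra h
      push Not at h
      have h0 : s = 0 := by ext i; simpa using h i
      subst h0
      simp at hs
    obtain ⟨i, hi⟩ := hne
    let s' : Fin n →₀ ℕ := s - Finsupp.single i 1
    have hss : s = s' + Finsupp.single i 1 := by
      ext j
      simp only [s', Finsupp.coe_add, Finsupp.coe_tsub, Pi.add_apply, Pi.sub_apply]
      by_cases hji : j = i
      · subst hji; simp; omega
      · simp [Finsupp.single_apply, Ne.symm hji]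
    have hs' : (s'.sum fun _ e => e) = d := by
      have h1 : (s.sum fun _ e => e) = (s'.sum fun _ e => e) + 1 := by
        rw [hss, Finsupp.sum_add_index' (fun _ => rfl) (fun _ _ _ => rfl)]
        simp
      omega
    have h2 := DegLT.mul_lin (Pi.evalAddMonoidHom (fun _ : Fin n => ZMod 2) i) (d + 1) _ 0
      (ih s' hs')
    refine h2.congr fun x => ?_
    rw [hss, Finsupp.prod_add_index' (fun _ => pow_zero _) (fun _ _ _ => pow_add _ _ _)]
    simp [mul_comm]

theorem degLT_eval {n d : ℕ} (P : MvPolynomial (Fin n) (ZMod 2)) (h : P.totalDegree ≤ d) :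
    DegLT (d + 1) (fun x : Fin n → ZMod 2 => MvPolynomial.eval x P) := by
  classical
  have h1 : ∀ x : Fin n → ZMod 2, MvPolynomial.eval x P
      = ∑ s ∈ P.support, P.coeff s * s.prod fun i e => x i ^ e := by
    intro x
    rw [MvPolynomial.eval_eq]
    rfl
  refine (DegLT.sum (d + 1) P.support
    (fun s (x : Fin n → ZMod 2) => P.coeff s * s.prod fun i e => x i ^ e) ?_).congr
    fun x => (h1 x).symm
  intro s hs
  apply DegLT.smul
  refine DegLT.mono ?_ _ (degLT_mono _ s rfl)
  have := MvPolynomial.le_totalDegree hs
  omega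

end Pool.Agent.Work.MP_79d924_lc
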