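import Pool.Agent.Work.MP_79d924_lc.Defs

/-!
Module Slice.

`SN_Dl`: induction on `J`; `Dl p (insert j J) a x = Dl p J a x + Dl p J a (x + a j)` and
`sgn (y + z) = sgn y * sgn z`; a shift of a function with `SN _ B` has `SN _ B`
(`c_i ↦ c_i * χ_i (a j)`), a product has `SN _ (B * B')` (index type `ι × ι'`).

`slice_rank`: let `G x = sgn (g x)`, `N = card V = 2 ^ dim V`. For every character `χ`,
`(∑ x, G x * χ x)^2 = ∑ h, χ h * ∑ x, G x * G (x + h)`; for `h ∉ ker M` the inner sum is `0` (choose
`u` with `M u h = 1`, the substitution `x ↦ x + u` changes the sign), otherwise it is `≤ N` in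
absolute value; so `(∑ x, G x χ x)^2 ≤ N * card (ker M) = N ^ 2 / 2 ^ rk M`.
And `N = ∑ x, G x ^ 2 = ∑ i, c i * ∑ x, G x * χ_i x ≤ A * max |∑ G χ|`, so `2 ^ rk M ≤ A ^ 2`.
(`M` is symmetric since `dd u (dd v g) = dd v (dd u g)`.)
-/

set_option autoImplicit false

namespace Pool.Agent.Work.MP_79d924_lc

open Module

theorem slice_isChar_abs {V : Type} [AddCommGroup V] {χ : V → ℝ} (h : IsChar χ) (x : V) :
    |χ x| = 1 := by
  have h1 := h.sq x
  have h2 : |χ x| * |χ x| = 1 := by rw [← abs_mul, h1, abs_one]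
  have h3 := abs_nonneg (χ x)
  nlinarith

theorem slice_SN_shift {V : Type} [AddCommGroup V] {G : V → ℝ} {A : ℝ} (h : SN G A) (v : V) :
    SN (fun x => G (x + v)) A := by
  obtain ⟨ι, hι, c, χ, h1, h2, h3⟩ := h
  refine ⟨ι, hι, fun i => c i * χ i v, χ, h1, ?_, ?_⟩
  · intro x
    show G (x + v) = _
    rw [h2]
    refine Finset.sum_congr rfl fun i _ => ?_
    rw [(h1 i).add]
    ring
  · refine le_trans (le_of_eq ?_) h3
    refine Finset.sum_congr rfl fun i _ => ?_
    rw [abs_mul, slice_isChar_abs (h1 i), mul_one]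

theorem slice_SN_mul {V : Type} [AddCommGroup V] {G H : V → ℝ} {A B : ℝ} (h : SN G A)
    (h' : SN H B) : SN (fun x => G x * H x) (A * B) := by
  obtain ⟨ι, hι, c, χ, h1, h2, h3⟩ := h
  obtain ⟨κ, hκ, d, ψ, k1, k2, k3⟩ := h'
  refine ⟨ι × κ, inferInstance, fun i => c i.1 * d i.2, fun i x => χ i.1 x * ψ i.2 x, ?_, ?_, ?_⟩
  · intro i
    refine ⟨?_, ?_⟩
    · intro x y
      show χ i.1 (x + y) * ψ i.2 (x + y) = _
      rw [(h1 i.1).add, (k1 i.2).add]
      ring
    · intro x
      have e1 := (h1 i.1).sq x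
      have e2 := (k1 i.2).sq x
      calc χ i.1 x * ψ i.2 x * (χ i.1 x * ψ i.2 x)
          = (χ i.1 x * χ i.1 x) * (ψ i.2 x * ψ i.2 x) := by ring
        _ = 1 := by rw [e1, e2, mul_one]
  · intro x
    show G x * H x = _
    rw [h2, k2, Finset.sum_mul_sum, Fintype.sum_prod_type]
    refine Finset.sum_congr rfl fun i _ => Finset.sum_congr rfl fun j _ => ?_
    ring
  · have e : ∑ i : ι × κ, |c i.1 * d i.2| = (∑ i, |c i|) * ∑ j, |d j| := by
      rw [Finset.sum_mul_sum, Fintype.sum_prod_type]
      refine Finset.sum_congr rfl fun i _ => Finset.sum_congr rfl fun j _ => ?_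
      rw [abs_mul]
    rw [e]
    have p1 : 0 ≤ ∑ i, |c i| := Finset.sum_nonneg fun i _ => abs_nonneg _
    have p2 : 0 ≤ ∑ j, |d j| := Finset.sum_nonneg fun i _ => abs_nonneg _
    exact mul_le_mul h3 k3 p2 (p1.trans h3)

theorem slice_sgn_add (a b : ZMod 2) : sgn (a + b) = sgn a * sgn b := by
  unfold sgn
  have : ∀ a b : ZMod 2, (a + b = 0 ↔ (a = 0 ↔ b = 0)) := by decide
  by_cases ha : a = 0
  · by_cases hb : b = 0
    · simp [ha, hb]
    · simp [ha, hb]
  · by_cases hb : b = 0
    · simp [ha, hb]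
    · have h := (this a b).2 (by tauto)
      simp [ha, hb, h]

theorem slice_sgn_sq (a : ZMod 2) : sgn a * sgn a = 1 := by
  unfold sgn
  split_ifs <;> simp

theorem slice_Dl_insert {V : Type} [AddCommGroup V] {ι : Type} [DecidableEq ι] (p : V → ZMod 2)
    {J : Finset ι} {j : ι} (hj : j ∉ J) (a : ι → V) (x : V) :
    Dl p (insert j J) a x = Dl p J a x + Dl p J a (x + a j) := by
  unfold Dl
  rw [Finset.sum_powerset_insert hj]
  congr 1
  refine Finset.sum_congr rfl fun S hS => ?_
  rw [Finset.mem_powerset] at hS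
  rw [Finset.sum_insert (fun h => hj (hS h))]
  congr 1
  abel

theorem SN_Dl {V : Type} [AddCommGroup V] {ι : Type} (p : V → ZMod 2)
    (A : ℝ) (h : SN (fun x => sgn (p x)) A) (J : Finset ι) (a : ι → V) :
    SN (fun x => sgn (Dl p J a x)) (A ^ (2 ^ J.card)) := by
  classical
  induction J using Finset.induction_on with
  | empty =>
    have e : (fun x => sgn (Dl p (∅ : Finset ι) a x)) = fun x => sgn (p x) := by
      funext x
      simp [Dl]
    rw [e]
    simpa using h
  | insert j J hj ih =>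
    have e : (fun x => sgn (Dl p (insert j J) a x)) =
        fun x => sgn (Dl p J a x) * sgn (Dl p J a (x + a j)) := by
      funext x
      rw [slice_Dl_insert p hj, slice_sgn_add]
    rw [e, Finset.card_insert_of_notMem hj]
    have e2 : A ^ 2 ^ (J.card + 1) = A ^ 2 ^ J.card * A ^ 2 ^ J.card := by
      rw [← pow_add]; congr 1; ring
    rw [e2]
    exact slice_SN_mul ih (slice_SN_shift ih (a j))

theorem slice_rank {V : Type} [AddCommGroup V] [Module (ZMod 2) V] [FiniteDimensional (ZMod 2) V]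
    (g : V → ZMod 2) (M : V →ₗ[ZMod 2] V →ₗ[ZMod 2] ZMod 2)
    (hM : ∀ u v x, dd u (dd v g) x = M u v) (s : ℕ)
    (h : SN (fun x => sgn (g x)) ((2 : ℝ) ^ s)) : rk M ≤ 2 * s := by
  classical
  haveI : Finite V := Module.finite_of_finite (ZMod 2)
  haveI : Fintype V := Fintype.ofFinite V
  set G : V → ℝ := fun x => sgn (g x) with hG
  set N : ℝ := (Fintype.card V : ℝ) with hN
  set K : ℝ := (Nat.card (LinearMap.ker M) : ℝ) with hK
  have hNpos : 0 < N := by
    rw [hN]
    have : 0 < Fintype.card V := Fintype.card_pos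
    exact_mod_cast this
  have hGsq : ∀ x, G x * G x = 1 := fun x => slice_sgn_sq _
  have hKnn : 0 ≤ K := by rw [hK]; exact_mod_cast Nat.zero_le _
  -- inner sums
  have inner0 : ∀ w : V, w ∉ LinearMap.ker M → ∑ x, G x * G (x + w) = 0 := by
    intro w hw
    have hw' : M w ≠ 0 := by simpa [LinearMap.mem_ker] using hw
    obtain ⟨u, hu⟩ : ∃ u, M w u ≠ 0 := by
      by_contra hcon
      push Not at hcon
      exact hw' (LinearMap.ext hcon)
    have hu1 : M w u = 1 := by
      have : ∀ a : ZMod 2, a ≠ 0 → a = 1 := by decide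
      exact this _ hu
    have key : ∀ x, G (x + u) * G (x + u + w) = -(G x * G (x + w)) := by
      intro x
      have e := hM w u x
      rw [hu1] at e
      unfold dd at e
      have e1 : sgn (g (x + w + u) + g (x + w) + (g (x + u) + g x)) = -1 := by
        rw [e]; simp [sgn]
      rw [slice_sgn_add, slice_sgn_add, slice_sgn_add] at e1
      have a1 := slice_sgn_sq (g x)
      have a2 := slice_sgn_sq (g (x + w))
      have e2 : x + u + w = x + w + u := by abel
      show sgn (g (x + u)) * sgn (g (x + u + w)) = -(sgn (g x) * sgn (g (x + w)))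
      rw [e2]
      calc sgn (g (x + u)) * sgn (g (x + w + u))
          = (sgn (g x) * sgn (g x)) * (sgn (g (x + w)) * sgn (g (x + w))) *
            (sgn (g (x + u)) * sgn (g (x + w + u))) := by rw [a1, a2]; ring
        _ = (sgn (g (x + w + u)) * sgn (g (x + w)) * (sgn (g (x + u)) * sgn (g x))) *
            (sgn (g x) * sgn (g (x + w))) := by ring
        _ = -(sgn (g x) * sgn (g (x + w))) := by rw [e1]; ring
    have s1 : ∑ x, G x * G (x + w) = ∑ x, G (x + u) * G (x + u + w) :=
      (Equiv.sum_comp (Equiv.addRight u) (fun x => G x * G (x + w))).symm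
    have s2 : ∑ x, G (x + u) * G (x + u + w) = -∑ x, G x * G (x + w) := by
      rw [← Finset.sum_neg_distrib]
      exact Finset.sum_congr rfl fun x _ => key x
    linarith
  have inner1 : ∀ w : V, |∑ x, G x * G (x + w)| ≤ N := by
    intro w
    refine (Finset.abs_sum_le_sum_abs _ _).trans ?_
    have : ∀ x ∈ (Finset.univ : Finset V), |G x * G (x + w)| ≤ 1 := by
      intro x _
      have a1 := hGsq x
      have a2 := hGsq (x + w)
      have : |G x * G (x + w)| * |G x * G (x + w)| = 1 := by
        rw [← abs_mul]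
        have : G x * G (x + w) * (G x * G (x + w)) = (G x * G x) * (G (x + w) * G (x + w)) := by
          ring
        rw [this, a1, a2]; simp
      nlinarith [abs_nonneg (G x * G (x + w))]
    refine (Finset.sum_le_sum this).trans ?_
    simp [hN]
  -- the Fourier coefficients
  have coef : ∀ χ : V → ℝ, IsChar χ → (∑ x, G x * χ x) ^ 2 ≤ N * K := by
    intro χ hχ
    have e1 : (∑ x, G x * χ x) ^ 2 = ∑ w, χ w * ∑ x, G x * G (x + w) := by
      rw [sq, Finset.sum_mul_sum]
      have : ∀ x ∈ (Finset.univ : Finset V), ∑ y, G x * χ x * (G y * χ y) =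
          ∑ w, χ w * (G x * G (x + w)) := by
        intro x _
        rw [← Equiv.sum_comp (Equiv.addLeft x) (fun y => G x * χ x * (G y * χ y))]
        refine Finset.sum_congr rfl fun w _ => ?_
        show G x * χ x * (G (x + w) * χ (x + w)) = _
        rw [hχ.add]
        have := hχ.sq x
        calc G x * χ x * (G (x + w) * (χ x * χ w)) = (χ x * χ x) * (χ w * (G x * G (x + w))) := by
              ring
          _ = _ := by rw [this, one_mul]
      rw [Finset.sum_congr rfl this, Finset.sum_comm]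
      refine Finset.sum_congr rfl fun w _ => ?_
      rw [Finset.mul_sum]
    rw [e1]
    have e2 : ∑ w, χ w * ∑ x, G x * G (x + w) =
        ∑ w ∈ Finset.univ.filter (fun w => w ∈ LinearMap.ker M), χ w * ∑ x, G x * G (x + w) := by
      symm
      refine Finset.sum_subset (Finset.filter_subset _ _) ?_
      intro w _ hw
      rw [Finset.mem_filter] at hw
      rw [inner0 w (fun h => hw ⟨Finset.mem_univ _, h⟩), mul_zero]
    rw [e2]
    refine (le_abs_self _).trans ((Finset.abs_sum_le_sum_abs _ _).trans ?_)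
    have : ∀ w ∈ Finset.univ.filter (fun w => w ∈ LinearMap.ker M),
        |χ w * ∑ x, G x * G (x + w)| ≤ N := by
      intro w _
      rw [abs_mul, slice_isChar_abs hχ, one_mul]
      exact inner1 w
    refine (Finset.sum_le_sum this).trans ?_
    rw [Finset.sum_const, nsmul_eq_mul]
    have hc : (Finset.univ.filter (fun w => w ∈ LinearMap.ker M)).card =
        Nat.card (LinearMap.ker M) := by
      rw [Nat.card_eq_fintype_card, Fintype.card_subtype]
    rw [hc, ← hK, mul_comm]
  obtain ⟨ι, hι, c, χ, h1, h2, h3⟩ := h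
  have total : N = ∑ i, c i * ∑ x, G x * χ i x := by
    have e1 : N = ∑ x, G x * G x := by
      rw [Finset.sum_congr rfl fun x _ => hGsq x]
      simp [hN]
    rw [e1]
    have : ∀ x ∈ (Finset.univ : Finset V), G x * G x = ∑ i, c i * (G x * χ i x) := by
      intro x _
      conv_lhs => rw [show G x * G x = G x * ∑ i, c i * χ i x from by rw [← h2 x]]
      rw [Finset.mul_sum]
      refine Finset.sum_congr rfl fun i _ => ?_
      ring
    rw [Finset.sum_congr rfl this, Finset.sum_comm]
    refine Finset.sum_congr rfl fun i _ => ?_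
    rw [Finset.mul_sum]
  have hbound : N ≤ (2 : ℝ) ^ s * Real.sqrt (N * K) := by
    have e1 : N ≤ ∑ i, |c i| * Real.sqrt (N * K) := by
      calc N = ∑ i, c i * ∑ x, G x * χ i x := total
        _ ≤ |∑ i, c i * ∑ x, G x * χ i x| := le_abs_self _
        _ ≤ ∑ i, |c i * ∑ x, G x * χ i x| := Finset.abs_sum_le_sum_abs _ _
        _ ≤ ∑ i, |c i| * Real.sqrt (N * K) := by
            refine Finset.sum_le_sum fun i _ => ?_
            rw [abs_mul]
            refine mul_le_mul_of_nonneg_left ?_ (abs_nonneg _)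
            exact Real.abs_le_sqrt (coef (χ i) (h1 i))
    rw [← Finset.sum_mul] at e1
    exact e1.trans (mul_le_mul_of_nonneg_right h3 (Real.sqrt_nonneg _))
  have hsq : N * N ≤ ((2 : ℝ) ^ s * (2 : ℝ) ^ s) * (N * K) := by
    have e1 : Real.sqrt (N * K) * Real.sqrt (N * K) = N * K :=
      Real.mul_self_sqrt (mul_nonneg hNpos.le hKnn)
    calc N * N ≤ ((2 : ℝ) ^ s * Real.sqrt (N * K)) * ((2 : ℝ) ^ s * Real.sqrt (N * K)) :=
          mul_le_mul hbound hbound hNpos.le (hNpos.le.trans hbound)
      _ = ((2 : ℝ) ^ s * (2 : ℝ) ^ s) * (Real.sqrt (N * K) * Real.sqrt (N * K)) := by ring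
      _ = _ := by rw [e1]
  have hfin : N ≤ (2 : ℝ) ^ (2 * s) * K := by
    have e1 : (2 : ℝ) ^ (2 * s) = (2 : ℝ) ^ s * (2 : ℝ) ^ s := by
      rw [← pow_add]; congr 1; ring
    rw [e1]
    by_contra hcon
    push Not at hcon
    nlinarith
  -- cardinalities
  have c1 : Fintype.card V = 2 ^ finrank (ZMod 2) V := by
    rw [Module.card_eq_pow_finrank (K := ZMod 2) (V := V), ZMod.card]
  have c2 : Nat.card (LinearMap.ker M) = 2 ^ finrank (ZMod 2) (LinearMap.ker M) := by
    haveI : Fintype (LinearMap.ker M) := Fintype.ofFinite _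
    rw [Nat.card_eq_fintype_card, Module.card_eq_pow_finrank (K := ZMod 2), ZMod.card]
  have c3 : finrank (ZMod 2) (LinearMap.range M) + finrank (ZMod 2) (LinearMap.ker M) =
      finrank (ZMod 2) V := LinearMap.finrank_range_add_finrank_ker M
  have hnat : 2 ^ finrank (ZMod 2) V ≤ 2 ^ (2 * s) * 2 ^ finrank (ZMod 2) (LinearMap.ker M) := by
    rw [hN, hK, c1, c2] at hfin
    exact_mod_cast hfin
  rw [← pow_add] at hnat
  have := (Nat.pow_le_pow_iff_right (by norm_num : 1 < 2)).1 hnat
  unfold rk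
  omega

end Pool.Agent.Work.MP_79d924_lc
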