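import Pool.Agent.Work.MP_79d924_lc.BaseKill
import Pool.Agent.Work.MP_79d924_lc.Slice
import Pool.Agent.Work.MP_79d924_lc.DegLem
import Pool.Agent.Work.MP_79d924_lc.DegPoly
import Pool.Agent.Work.MP_79d924_lc.Codim

/-!
Degree reduction and the induction on the degree.
-/

set_option autoImplicit false

namespace Pool.Agent.Work.MP_79d924_lc

open Module

theorem SN_comp_sub {V : Type} [AddCommGroup V] [Module (ZMod 2) V] (H : Submodule (ZMod 2) V)
    (x : V) (f : V → ZMod 2) (A : ℝ) (h : SN (fun x => sgn (f x)) A) :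
    SN (fun y : H => sgn (f (x + y))) A := by
  obtain ⟨ι, _, c, χ, hχ, hG, hA⟩ := h
  refine ⟨ι, inferInstance, fun i => c i * χ i x, fun i (y : H) => χ i (y : V), ?_, ?_, ?_⟩
  · intro i
    refine ⟨fun y z => ?_, fun y => ?_⟩
    · simpa using (hχ i).add (y : V) (z : V)
    · exact (hχ i).sq _
  · intro y
    have := hG (x + y)
    simp only at this
    show sgn (f (x + y)) = _
    rw [this]
    refine Finset.sum_congr rfl fun i _ => ?_
    show c i * χ i (x + y) = c i * χ i x * χ i (y : V)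
    rw [(hχ i).add]
    ring
  · refine le_trans (le_of_eq ?_) hA
    refine Finset.sum_congr rfl fun i _ => ?_
    rw [abs_mul]
    have h1 : |χ i x| = 1 := by
      have := (hχ i).sq x
      have h2 : |χ i x| * |χ i x| = 1 := by rw [← abs_mul, this, abs_one]
      nlinarith [abs_nonneg (χ i x)]
    rw [h1, mul_one]

theorem reduce {V : Type} [AddCommGroup V] [Module (ZMod 2) V] [FiniteDimensional (ZMod 2) V]
    (d k e : ℕ) (hd : 2 ≤ d) (f : V → ZMod 2) (hf : DegLT (d + 1) f)
    (hs : SN (fun x => sgn (f x)) ((2 : ℝ) ^ k))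
    (he : 4 ^ (d - 2) * (2 ^ (d - 1) * k) + 3 ≤ 2 ^ e) :
    ∃ H : Submodule (ZMod 2) V,
      finrank (ZMod 2) V ≤ finrank (ZMod 2) H + e * (4 ^ (d - 2) * (2 ^ (d - 1) * k)) ∧
      ∀ x : V, DegLT d (fun y : H => f (x + y)) := by
  obtain ⟨T, hT, hT1, hT2⟩ := exists_form d f hf
  let p : Fin d := ⟨0, by omega⟩
  let q : Fin d := ⟨1, by omega⟩
  have hpq : p ≠ q := by
    intro h
    have := congrArg Fin.val h
    simp [p, q] at this
  have hcard : (Finset.univ \ {p, q} : Finset (Fin d)).card = d - 2 := by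
    rw [Finset.card_sdiff_of_subset (Finset.subset_univ _), Finset.card_univ, Fintype.card_fin,
      Finset.card_pair hpq]
  have hr : ∀ x, rk (bil T hpq x) ≤ 2 ^ (d - 1) * k := by
    intro x
    have h1 := SN_Dl f _ hs (Finset.univ \ {p, q}) x
    rw [hcard, ← pow_mul] at h1
    have h2 := slice_rank (Dl f (Finset.univ \ {p, q}) x) (bil T hpq x)
      (fun u v y => (hT2 hpq x u v y).symm) (k * 2 ^ (d - 2)) h1
    refine h2.trans (le_of_eq ?_)
    have : d - 1 = (d - 2) + 1 := by omega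
    rw [this, pow_succ]
    ring
  obtain ⟨H, hH1, hH2⟩ := base_kill' T hT hpq (2 ^ (d - 1) * k) e hr
    (by rw [Fintype.card_fin]; exact he)
  rw [Fintype.card_fin] at hH1
  refine ⟨H, hH1, fun x => ?_⟩
  apply degLT_of_fin
  intro a y
  have h1 : Dl (fun y : H => f (x + y)) Finset.univ a y
      = Dl f Finset.univ (fun j => (a j : V)) (x + y) := by
    unfold Dl
    refine Finset.sum_congr rfl fun S _ => ?_
    show f (x + ((y + ∑ i ∈ S, a i : H) : V)) = _
    rw [Submodule.coe_add, Submodule.coe_sum, add_assoc]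
  rw [h1, ← hT1]
  exact hH2 _ (fun j => (a j).2)

/-- the number of parities used -/
def cst (k : ℕ) : ℕ → ℕ
  | 0 => 0
  | 1 => 1
  | (d + 2) => (Nat.log 2 (4 ^ d * (2 ^ (d + 1) * k) + 3) + 1) * (4 ^ d * (2 ^ (d + 1) * k))
      + cst k (d + 1)

end Pool.Agent.Work.MP_79d924_lc
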