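import Pool.Agent.Work.MP_79d924_lc.Defs

/-!
Module Pencil: rank of pencils of bilinear forms over a finite field.
-/

set_option autoImplicit false

namespace Pool.Agent.Work.MP_79d924_lc

open Module

theorem exists_det_ne {F : Type} [Field F] [Fintype F] {n : Type} [Fintype n] [DecidableEq n]
    (A B : Matrix n n F) (hA : A.det ≠ 0) (hq : Fintype.card n + 2 ≤ Fintype.card F) :
    ∃ s : F, s ≠ 0 ∧ (A + s • B).det ≠ 0 := by
  classical
  set P : Polynomial F :=
    ((Polynomial.X : Polynomial F) • B.map Polynomial.C + A.map Polynomial.C).det with hP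
  have hev : ∀ s : F, P.eval s = (A + s • B).det := by
    intro s
    have h := (Polynomial.evalRingHom s).map_det
      ((Polynomial.X : Polynomial F) • B.map Polynomial.C + A.map Polynomial.C)
    rw [Polynomial.coe_evalRingHom] at h
    rw [hP, h]
    congr 1
    ext i j
    simp
    ring
  have hne : P ≠ 0 := by
    intro h0
    have h1 := hev 0
    rw [h0] at h1
    simp at h1
    exact hA h1.symm
  have hdeg : P.natDegree ≤ Fintype.card n := Polynomial.natDegree_det_X_add_C_le B A
  by_contra hcon
  push Not at hcon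
  have hsub : (Finset.univ.erase (0 : F)) ⊆ P.roots.toFinset := by
    intro s hs
    rw [Finset.mem_erase] at hs
    rw [Multiset.mem_toFinset, Polynomial.mem_roots hne, Polynomial.IsRoot, hev]
    exact hcon s hs.1
  have h2 := Finset.card_le_card hsub
  rw [Finset.card_erase_of_mem (Finset.mem_univ _), Finset.card_univ] at h2
  have h3 := Multiset.toFinset_card_le P.roots
  have h4 := Polynomial.card_roots' P
  omega

theorem rk_of_gram {F V : Type} [Field F] [AddCommGroup V] [Module F V]
    [FiniteDimensional F V] (A : V →ₗ[F] V →ₗ[F] F) {n : Type} [Fintype n] [DecidableEq n]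
    (x y : n → V) (h : (Matrix.of fun i j => A (x i) (y j)).det ≠ 0) :
    Fintype.card n ≤ rk A := by
  classical
  have hli : LinearIndependent F (fun i => A (x i)) := by
    rw [Fintype.linearIndependent_iff]
    intro g hg
    have h1 : Matrix.vecMul g (Matrix.of fun i j => A (x i) (y j)) = 0 := by
      ext j
      have h2 := congrArg (fun f : V →ₗ[F] F => f (y j)) hg
      simp only [LinearMap.sum_apply, LinearMap.smul_apply, LinearMap.zero_apply,
        smul_eq_mul] at h2
      simpa [Matrix.vecMul, dotProduct] using h2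
    have h3 := Matrix.eq_zero_of_vecMul_eq_zero h h1
    intro i
    rw [h3]
    rfl
  have hli' : LinearIndependent F
      (fun i => (⟨A (x i), LinearMap.mem_range_self A (x i)⟩ : LinearMap.range A)) := by
    apply LinearIndependent.of_comp (LinearMap.range A).subtype
    exact hli
  exact hli'.fintype_card_le_finrank

theorem exists_preimages {F V W : Type} [Field F] [AddCommGroup V] [Module F V]
    [FiniteDimensional F V] [AddCommGroup W] [Module F W] (A : V →ₗ[F] W) :
    ∃ x : Fin (rk A) → V, LinearIndependent F (fun i => A (x i)) := by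
  obtain ⟨C, hC⟩ := Submodule.exists_isCompl (LinearMap.ker A)
  have h1 := Submodule.finrank_add_eq_of_isCompl hC
  have h2 := LinearMap.finrank_range_add_finrank_ker A
  have h3 : finrank F C = rk A := by
    unfold rk
    omega
  let b := finBasisOfFinrankEq F C h3
  refine ⟨fun i => (b i : V), ?_⟩
  have h4 : LinearIndependent F (fun i => (b i : V)) :=
    b.linearIndependent.map' C.subtype (Submodule.ker_subtype _)
  refine h4.map ?_
  rw [disjoint_comm]
  refine hC.disjoint.mono_right ?_
  rw [Submodule.span_le]
  rintro _ ⟨i, rfl⟩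
  exact (b i).2

theorem pi_surj {F V : Type} [Field F] [AddCommGroup V] [Module F V] {n : Type} [Fintype n]
    [DecidableEq n] (φ : n → V →ₗ[F] F) (h : LinearIndependent F φ) :
    Function.Surjective (LinearMap.pi φ) := by
  rw [← LinearMap.range_eq_top]
  by_contra hne
  obtain ⟨ψ, hψ0, hψ⟩ := Submodule.exists_le_ker_of_lt_top _ (lt_top_iff_ne_top.2 hne)
  rw [Fintype.linearIndependent_iff] at h
  have h1 : ∀ i, ψ (Pi.single i 1) = 0 := by
    apply h
    ext v
    have h2 : ψ (LinearMap.pi φ v) = 0 := hψ ⟨v, rfl⟩
    rw [LinearMap.pi_apply_eq_sum_univ ψ] at h2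
    simp only [LinearMap.pi_apply, smul_eq_mul] at h2
    simp only [LinearMap.sum_apply, LinearMap.smul_apply, LinearMap.zero_apply, smul_eq_mul]
    rw [← h2]
    refine Finset.sum_congr rfl fun i _ => ?_
    rw [mul_comm]
    congr 2
    ext j
    by_cases hij : i = j
    · subst hij; simp
    · simp [hij, Ne.symm hij]
  apply hψ0
  ext i
  simp [h1]

theorem exists_dual {F V : Type} [Field F] [AddCommGroup V] [Module F V]
    [FiniteDimensional F V] (A : V →ₗ[F] V →ₗ[F] F) :
    ∃ x y : Fin (rk A) → V, ∀ i j, A (x i) (y j) = if i = j then 1 else 0 := by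
  classical
  obtain ⟨x, hx⟩ := exists_preimages A
  have hsurj := pi_surj _ hx
  have hy : ∀ j, ∃ y, ∀ i, A (x i) y = if i = j then 1 else 0 := by
    intro j
    obtain ⟨y, hy⟩ := hsurj (fun i => if i = j then 1 else 0)
    exact ⟨y, fun i => congrFun hy i⟩
  choose y hy using hy
  exact ⟨x, y, fun i j => hy j i⟩

theorem exists_shift {F V : Type} [Field F] [Fintype F] [AddCommGroup V] [Module F V]
    [FiniteDimensional F V] (A N : V →ₗ[F] V →ₗ[F] F) (hq : rk A + 2 ≤ Fintype.card F) :
    ∃ s : F, s ≠ 0 ∧ rk A ≤ rk (A + s • N) := by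
  classical
  obtain ⟨x, y, hxy⟩ := exists_dual A
  obtain ⟨s, hs, hdet⟩ := exists_det_ne (1 : Matrix (Fin (rk A)) (Fin (rk A)) F)
    (Matrix.of fun i j => N (x i) (y j)) (by simp) (by simpa using hq)
  refine ⟨s, hs, ?_⟩
  have h := rk_of_gram (A + s • N) x y (by
    have : (Matrix.of fun i j => (A + s • N) (x i) (y j)) =
        (1 : Matrix (Fin (rk A)) (Fin (rk A)) F) + s • (Matrix.of fun i j => N (x i) (y j)) := by
      ext i j
      simp [hxy, Matrix.one_apply]
    rw [this]
    exact hdet)
  simpa using h

theorem pencil {F V : Type} [Field F] [Fintype F] [AddCommGroup V] [Module F V]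
    [FiniteDimensional F V] (A B : V →ₗ[F] V →ₗ[F] F) (hq : rk A + 3 ≤ Fintype.card F)
    (hle : ∀ t : F, rk (A + t • B) ≤ rk A) (u u' : V) (hu : A u = 0) (hu' : ∀ w, A w u' = 0) :
    B u u' = 0 := by
  classical
  by_contra hc
  obtain ⟨x, y, hxy⟩ := exists_dual A
  set X : Matrix (Fin (rk A)) (Fin (rk A)) F := Matrix.of fun i j => B (x i) (y j) with hX
  set Y : Matrix (Fin (rk A)) Unit F := Matrix.of fun i _ => B (x i) u' with hY
  set Z : Matrix Unit (Fin (rk A)) F := Matrix.of fun _ j => B u (y j) with hZ
  set c : Matrix Unit Unit F := Matrix.of fun _ _ => B u u' with hcm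
  obtain ⟨t, ht, hdet⟩ := exists_det_ne (Matrix.fromBlocks 1 0 Z c) (Matrix.fromBlocks X Y 0 0)
    (by
      rw [Matrix.det_fromBlocks_zero₁₂]
      simp [hcm, hc])
    (by
      simp only [Fintype.card_sum, Fintype.card_fin, Fintype.card_unit]
      omega)
  have h := rk_of_gram (A + t • B) (Sum.elim x (fun _ : Unit => u))
    (Sum.elim y (fun _ : Unit => u')) (by
      have : (Matrix.of fun i j => (A + t • B) (Sum.elim x (fun _ : Unit => u) i)
          (Sum.elim y (fun _ : Unit => u') j)) =
          Matrix.diagonal (Sum.elim (fun _ : Fin (rk A) => (1 : F)) (fun _ : Unit => t)) *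
          (Matrix.fromBlocks 1 0 Z c + t • Matrix.fromBlocks X Y 0 0) := by
        ext i j
        rw [Matrix.diagonal_mul]
        rcases i with i | i <;> rcases j with j | j
        · simp [hxy, Matrix.one_apply, hX]
        · simp [hu', hY]
        · simp [hu, hZ]
        · simp [hu, hcm]
      rw [this, Matrix.det_mul, Matrix.det_diagonal]
      refine mul_ne_zero ?_ hdet
      simp [Fintype.prod_sum_type, ht])
  have h2 := hle t
  simp only [Fintype.card_sum, Fintype.card_fin, Fintype.card_unit] at h
  omega

end Pool.Agent.Work.MP_79d924_lc
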