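import Pool.Agent.Work.MP_79d924_lc.Defs

/-!
Module RankSpan: an additive group of linear maps all of rank `≤ r` spans (over the field `F`)
a space of maps of rank `≤ 4 r`.

Proof. Strong induction on `r` (generalising the spaces `V`, `W`). Let `g₁ ∈ G` have maximal rank
`r₀ ≤ r`.  If `r₀ = 0` everything is `0`.  Otherwise let `K = ker g₁`, `I = range g₁` and
`Φ g = (I.mkQ) ∘ g ∘ (K.subtype)`, an `F`-linear map `Hom(V,W) → Hom(K, W ⧸ I)`.
(b) `2 * rk (Φ g) + rk g₁ ≤ rk g + rk (g + g₁)`: let `A ⊆ K` be a complement in `K` of `ker (Φ g)`,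
so `dim A = rk (Φ g)`, `g` is injective on `A` and `g(A) ∩ I = 0`.  Let `π : W → W ⧸ g(A)`.
As `g₁ = 0` on `A`, `(g+g₁)(A) = g(A)`, so `rk g = dim A + rk (π g)` and
`rk (g+g₁) = dim A + rk (π (g+g₁))`, and `rk (π g) + rk (π (g+g₁)) ≥ rk (π g₁) = rk g₁` since
`I ∩ g(A) = 0`.
(a) `rk g ≤ rk (Φ g) + 2 * rk g₁`.
By (b), all elements of `Φ(G)` have rank `≤ r₀ / 2 < r`, so by induction all elements of
`Φ (span G) = span (Φ G)` have rank `≤ 4 * (r₀/2) ≤ 2 r₀`, and (a) gives `rk g ≤ 4 r₀`.
-/

set_option autoImplicit false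

namespace Pool.Agent.Work.MP_79d924_lc

open Module

section
variable {F : Type} [Field F] {V W : Type} [AddCommGroup V] [Module F V] [FiniteDimensional F V]
  [AddCommGroup W] [Module F W] [FiniteDimensional F W]

theorem rk_add_le (f g : V →ₗ[F] W) : rk (f + g) ≤ rk f + rk g := by
  unfold rk
  calc finrank F (LinearMap.range (f + g))
      ≤ finrank F (LinearMap.range f ⊔ LinearMap.range g : Submodule F W) := by
        apply Submodule.finrank_mono
        rintro _ ⟨x, rfl⟩
        exact Submodule.add_mem_sup ⟨x, rfl⟩ ⟨x, rfl⟩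
    _ ≤ _ := Submodule.finrank_add_le_finrank_add_finrank _ _

theorem rk_neg (f : V →ₗ[F] W) : rk (-f) = rk f := by
  unfold rk
  rw [LinearMap.range_neg]

/-- `rk (π ∘ g) + finrank N = rk g` when `N ≤ range g` and `π = N.mkQ` -/
theorem rk_mkQ (g : V →ₗ[F] W) (N : Submodule F W) (hN : N ≤ LinearMap.range g) :
    rk (N.mkQ.comp g) + finrank F N = rk g := by
  unfold rk
  rw [LinearMap.range_comp]
  have h := LinearMap.finrank_range_add_finrank_ker (N.mkQ.domRestrict (LinearMap.range g))
  have h1 : LinearMap.range (N.mkQ.domRestrict (LinearMap.range g))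
      = Submodule.map N.mkQ (LinearMap.range g) := by
    ext x; simp
  have h2 : finrank F (LinearMap.ker (N.mkQ.domRestrict (LinearMap.range g))) = finrank F N := by
    have : (LinearMap.ker (N.mkQ.domRestrict (LinearMap.range g))).map
        (LinearMap.range g).subtype = N := by
      ext x
      simp only [Submodule.mem_map, LinearMap.mem_ker, Submodule.subtype_apply, Subtype.exists,
        LinearMap.domRestrict_apply, Submodule.mkQ_apply, Submodule.Quotient.mk_eq_zero]
      constructor
      · rintro ⟨a, _, ha, rfl⟩; exact ha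
      · intro hx; exact ⟨x, hN hx, hx, rfl⟩
    have h3 := LinearEquiv.finrank_eq (Submodule.equivMapOfInjective
      (LinearMap.range g).subtype (Submodule.subtype_injective _)
      (LinearMap.ker (N.mkQ.domRestrict (LinearMap.range g))))
    rw [this] at h3
    exact h3
  rw [h1, h2] at h
  exact h

/-- compression of `g` to `K → W ⧸ I` -/
def cmp (K : Submodule F V) (I : Submodule F W) : (V →ₗ[F] W) →ₗ[F] (K →ₗ[F] W ⧸ I) where
  toFun g := I.mkQ.comp (g.comp K.subtype)
  map_add' g h := by ext; simp
  map_smul' c g := by ext; simp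

theorem cmp_apply (K : Submodule F V) (I : Submodule F W) (g : V →ₗ[F] W) (x : K) :
    cmp K I g x = I.mkQ (g x) := rfl

theorem rk_le_cmp (K : Submodule F V) (I : Submodule F W) (g : V →ₗ[F] W) :
    rk g + finrank F K ≤ rk (cmp K I g) + finrank F I + finrank F V := by
  -- ker (cmp g) has dimension ≥ ...
  have h1 := LinearMap.finrank_range_add_finrank_ker g
  have h2 := LinearMap.finrank_range_add_finrank_ker (cmp K I g)
  -- ker (cmp K I g) → I with kernel ⊆ ker g
  let θ : LinearMap.ker (cmp K I g) →ₗ[F] I :=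
    { toFun := fun x => ⟨g (x : K), by
        have := x.2
        rw [LinearMap.mem_ker, cmp_apply, Submodule.mkQ_apply,
          Submodule.Quotient.mk_eq_zero] at this
        exact this⟩
      map_add' := fun x y => by ext; simp
      map_smul' := fun c x => by ext; simp }
  have h3 := LinearMap.finrank_range_add_finrank_ker θ
  have h4 : finrank F (LinearMap.range θ) ≤ finrank F I := Submodule.finrank_le _
  have h5 : finrank F (LinearMap.ker θ) ≤ finrank F (LinearMap.ker g) := by
    let φ : LinearMap.ker θ →ₗ[F] LinearMap.ker g :=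
      { toFun := fun x => ⟨((x : LinearMap.ker (cmp K I g)) : K), by
          have := x.2
          rw [LinearMap.mem_ker] at this
          rw [LinearMap.mem_ker]
          exact congrArg Subtype.val this⟩
        map_add' := fun x y => by ext; simp
        map_smul' := fun c x => by ext; simp }
    refine LinearMap.finrank_le_finrank_of_injective (f := φ) ?_
    intro x y hxy
    apply Subtype.ext
    apply Subtype.ext
    apply Subtype.ext
    have := congrArg Subtype.val hxy
    exact this
  unfold rk at *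
  omega

theorem two_rk_cmp (g g₁ : V →ₗ[F] W) :
    2 * rk (cmp (LinearMap.ker g₁) (LinearMap.range g₁) g) + rk g₁ ≤ rk g + rk (g + g₁) := by
  set K := LinearMap.ker g₁ with hK
  set I := LinearMap.range g₁ with hI
  set φ := cmp K I g with hφ
  obtain ⟨A, hA⟩ := Submodule.exists_isCompl (LinearMap.ker φ)
  -- A ≤ K complement of ker φ
  have hAdim : finrank F A = rk φ := by
    have h1 := LinearMap.finrank_range_add_finrank_ker φ
    have h2 := Submodule.finrank_add_eq_of_isCompl hA
    unfold rk
    omega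
  -- N = g(A)
  let N : Submodule F W := A.map (g.comp K.subtype)
  have hinj : ∀ x ∈ A, g (x : V) ∈ I → x = 0 := by
    intro x hx hxI
    have : x ∈ LinearMap.ker φ := by
      rw [LinearMap.mem_ker, hφ, cmp_apply, Submodule.mkQ_apply, Submodule.Quotient.mk_eq_zero]
      exact hxI
    have := Submodule.disjoint_def.mp hA.disjoint x this hx
    exact this
  have hNdim : finrank F N = finrank F A := by
    let ψ : A →ₗ[F] W := (g.comp K.subtype).domRestrict A
    have hψ : LinearMap.range ψ = N := by
      ext w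
      simp only [ψ, N, LinearMap.mem_range, Submodule.mem_map, Subtype.exists,
        LinearMap.domRestrict_apply]
      constructor
      · rintro ⟨x, hx, hxA, rfl⟩; exact ⟨x, hx, hxA, rfl⟩
      · rintro ⟨x, hx, hxA, rfl⟩; exact ⟨x, hx, hxA, rfl⟩
    have hinjψ : Function.Injective ψ := by
      rw [← LinearMap.ker_eq_bot, LinearMap.ker_eq_bot']
      intro x hx
      apply Subtype.ext
      apply hinj _ x.2
      have : g ((x : K) : V) = 0 := hx
      rw [this]
      exact I.zero_mem
    rw [← hψ]
    exact LinearMap.finrank_range_of_inj hinjψ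
  have hN1 : N ≤ LinearMap.range g := by
    rintro _ ⟨x, _, rfl⟩
    exact ⟨_, rfl⟩
  have hN2 : N ≤ LinearMap.range (g + g₁) := by
    rintro _ ⟨x, _, rfl⟩
    refine ⟨(x : V), ?_⟩
    have : g₁ (x : V) = 0 := x.2
    simp [this]
  have e1 := rk_mkQ g N hN1
  have e2 := rk_mkQ (g + g₁) N hN2
  -- `π g₁` has full rank `rk g₁`
  have e3 : rk g₁ ≤ rk (N.mkQ.comp g₁) := by
    unfold rk
    rw [LinearMap.range_comp]
    have hinj2 : Function.Injective (N.mkQ.domRestrict (LinearMap.range g₁)) := by
      rw [← LinearMap.ker_eq_bot, LinearMap.ker_eq_bot']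
      rintro ⟨w, hw⟩ h
      have hwN : w ∈ N := by
        have : N.mkQ w = 0 := h
        rwa [Submodule.mkQ_apply, Submodule.Quotient.mk_eq_zero] at this
      obtain ⟨x, hxA, hx⟩ := hwN
      have hgx : g (x : V) = w := hx
      have : x = 0 := hinj x hxA (by rw [hgx]; exact hw)
      apply Subtype.ext
      show w = 0
      rw [← hgx, this]
      simp
    have h1 := LinearMap.finrank_range_of_inj hinj2
    rw [← h1]
    apply Submodule.finrank_mono
    rintro _ ⟨x, rfl⟩
    exact ⟨x, x.2, rfl⟩
  have e4 : rk (N.mkQ.comp g₁) ≤ rk (N.mkQ.comp (g + g₁)) + rk (N.mkQ.comp g) := by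
    have h : N.mkQ.comp g₁ = N.mkQ.comp (g + g₁) + -(N.mkQ.comp g) := by
      ext x; simp
    rw [h]
    refine (rk_add_le _ _).trans ?_
    rw [rk_neg]
  rw [hNdim, hAdim] at e1 e2
  omega

theorem rk_zero_imp (g : V →ₗ[F] W) (h : rk g = 0) : g = 0 := by
  unfold rk at h
  rw [Submodule.finrank_eq_zero, LinearMap.range_eq_bot] at h
  exact h

theorem rk_zero' : rk (0 : V →ₗ[F] W) = 0 := by
  unfold rk
  rw [LinearMap.range_zero, finrank_bot]

end

theorem rk_span_le {F : Type} [Field F] : ∀ (r : ℕ) (V W : Type) [AddCommGroup V] [Module F V]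
    [FiniteDimensional F V] [AddCommGroup W] [Module F W] [FiniteDimensional F W]
    (G : AddSubgroup (V →ₗ[F] W)), (∀ g ∈ G, rk g ≤ r) →
    ∀ g ∈ Submodule.span F (G : Set (V →ₗ[F] W)), rk g ≤ 4 * r := by
  intro r
  induction r using Nat.strong_induction_on with
  | _ r ih =>
    intro V W _ _ _ _ _ _ G hG g hg
    -- choose an element of maximal rank
    obtain ⟨g₁, hg₁, hmax⟩ : ∃ g₁ ∈ G, ∀ h ∈ G, rk h ≤ rk g₁ := by
      classical
      have hne : ∃ n, ∃ h ∈ G, rk h = n := ⟨_, 0, G.zero_mem, rfl⟩
      let P : ℕ → Prop := fun n => ∃ h ∈ G, rk h = n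
      have hP : P (Nat.findGreatest P r) := by
        have h0 : P 0 := ⟨0, G.zero_mem, rk_zero'⟩
        exact Nat.findGreatest_spec (Nat.zero_le r) h0
      obtain ⟨g₁, hg₁, hr⟩ := hP
      refine ⟨g₁, hg₁, fun h hh => ?_⟩
      rw [hr]
      exact Nat.le_findGreatest (hG h hh) ⟨h, hh, rfl⟩
    by_cases h0 : rk g₁ = 0
    · have hall : ∀ h ∈ G, h = 0 := fun h hh => rk_zero_imp h (by
        have := hmax h hh; omega)
      have hspan : Submodule.span F (G : Set (V →ₗ[F] W)) = ⊥ := by
        rw [Submodule.span_eq_bot]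
        intro h hh
        exact hall h hh
      rw [hspan, Submodule.mem_bot] at hg
      rw [hg, rk_zero']
      exact Nat.zero_le _
    · set K := LinearMap.ker g₁ with hK
      set I := LinearMap.range g₁ with hI
      have hlt : rk g₁ / 2 < r := by
        have := hG g₁ hg₁
        omega
      have hG' : ∀ h ∈ G.map (cmp K I).toAddMonoidHom, rk h ≤ rk g₁ / 2 := by
        rintro _ ⟨h, hh, rfl⟩
        have h1 := two_rk_cmp h g₁
        have h2 := hmax h hh
        have h3 := hmax (h + g₁) (G.add_mem hh hg₁)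
        have h4 : rk (cmp K I h) ≤ rk g₁ / 2 := by
          rw [hK, hI]
          omega
        exact h4
      have hmem : cmp K I g ∈ Submodule.span F
          ((G.map (cmp K I).toAddMonoidHom : AddSubgroup _) : Set (K →ₗ[F] W ⧸ I)) := by
        have h1 : cmp K I g ∈ (Submodule.span F (G : Set (V →ₗ[F] W))).map (cmp K I) :=
          ⟨g, hg, rfl⟩
        rw [Submodule.map_span] at h1
        exact h1
      have h5 := ih (rk g₁ / 2) hlt K (W ⧸ I) _ hG' _ hmem
      have h6 := rk_le_cmp K I g
      have h7 : finrank F I = rk g₁ := rfl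
      have h8 : rk g₁ + finrank F K = finrank F V := LinearMap.finrank_range_add_finrank_ker g₁
      have h9 := hG g₁ hg₁
      omega

end Pool.Agent.Work.MP_79d924_lc
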