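import Pool.Agent.Work.MP_79d924_lc.Pencil

/-!
Module SymKill: a symmetric multilinear form all of whose bilinear slices have small rank is
killed on the kernel of one slice.
-/

set_option autoImplicit false

namespace Pool.Agent.Work.MP_79d924_lc

open Module

section

variable {F V J : Type} [Field F] [AddCommGroup V] [Module F V] [DecidableEq J]

theorem bil_symm (T : MultilinearMap F (fun _ : J => V) F) (hT : IsSym T) {p q : J}
    (hpq : p ≠ q) (a : J → V) (u v : V) : bil T hpq a u v = bil T hpq a v u := by
  rw [bil_apply, bil_apply]
  rw [← hT (Equiv.swap p q) (Function.update (Function.update a p u) q v)]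
  congr 1
  funext j
  by_cases hjq : j = q
  · subst hjq
    rw [Equiv.swap_apply_right, Function.update_of_ne hpq, Function.update_self,
      Function.update_self]
  · by_cases hjp : j = p
    · subst hjp
      rw [Equiv.swap_apply_left, Function.update_self, Function.update_of_ne hjq,
        Function.update_self]
    · rw [Equiv.swap_apply_of_ne_of_ne hjp hjq]
      simp [hjp, hjq]

theorem bil_symm' (T : MultilinearMap F (fun _ : J => V) F) (hT : IsSym T) {p q i : J}
    (hpq : p ≠ q) (hip : i ≠ p) (hiq : i ≠ q) (a : J → V) (x u w : V) :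
    bil T hpq (Function.update a i x) u w = bil T hpq (Function.update a i w) u x := by
  rw [bil_apply, bil_apply]
  rw [← hT (Equiv.swap i q) (Function.update (Function.update (Function.update a i x) p u) q w)]
  congr 1
  funext j
  by_cases hjq : j = q
  · subst hjq
    rw [Equiv.swap_apply_right, Function.update_of_ne hiq, Function.update_of_ne hip,
      Function.update_self, Function.update_self]
  · by_cases hji : j = i
    · subst hji
      rw [Equiv.swap_apply_left, Function.update_self, Function.update_of_ne hjq,
        Function.update_of_ne hip, Function.update_self]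
    · rw [Equiv.swap_apply_of_ne_of_ne hji hjq]
      rw [Function.update_of_ne hjq, Function.update_of_ne hjq]
      by_cases hjp : j = p
      · subst hjp
        simp
      · simp [hjp, hji]

theorem bil_line (T : MultilinearMap F (fun _ : J => V) F) {p q i : J}
    (hpq : p ≠ q) (hip : i ≠ p) (hiq : i ≠ q) (a : J → V) (v : V) (t : F) :
    bil T hpq (Function.update a i (a i + t • v)) =
      bil T hpq a + t • bil T hpq (Function.update a i v) := by
  ext u w
  rw [LinearMap.add_apply, LinearMap.add_apply, LinearMap.smul_apply, LinearMap.smul_apply,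
    bil_apply, bil_apply, bil_apply]
  have h : ∀ z : V, Function.update (Function.update (Function.update a i z) p u) q w =
      Function.update (Function.update (Function.update a p u) q w) i z := by
    intro z
    rw [Function.update_comm hip z u a]
    exact Function.update_comm (β := fun _ => V) hiq z w _
  rw [h, h, T.map_update_add, T.map_update_smul]
  congr 2
  conv_rhs => rw [← Function.update_eq_self i (Function.update (Function.update a p u) q w)]
  rw [Function.update_of_ne hiq, Function.update_of_ne hip]

end

theorem sym_kill {F V J : Type} [Field F] [Fintype F] [AddCommGroup V] [Module F V]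
    [FiniteDimensional F V] [DecidableEq J] [Fintype J]
    (T : MultilinearMap F (fun _ : J => V) F) (hT : IsSym T) {p q : J} (hpq : p ≠ q) (r : ℕ)
    (hr : ∀ x, rk (bil T hpq x) ≤ r) (hq : r + 3 ≤ Fintype.card F) :
    ∃ b : J → V, ∀ x : J → V, (∀ j, bil T hpq b (x j) = 0) → T x = 0 := by
  classical
  obtain ⟨b, hb⟩ : ∃ b : J → V, ∀ x, rk (bil T hpq x) ≤ rk (bil T hpq b) := by
    have hbdd : BddAbove (Set.range fun x : J → V => rk (bil T hpq x)) := by
      refine ⟨r, ?_⟩
      rintro _ ⟨x, rfl⟩
      exact hr x
    obtain ⟨b, hb⟩ := Nat.sSup_mem (Set.range_nonempty fun x : J → V => rk (bil T hpq x)) hbdd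
    refine ⟨b, fun x => ?_⟩
    have h1 := le_csSup hbdd ⟨x, rfl⟩
    have h2 : rk (bil T hpq b) = sSup (Set.range fun x : J → V => rk (bil T hpq x)) := hb
    rw [h2]
    exact h1
  set K := LinearMap.ker (bil T hpq b) with hK
  set ρ := rk (bil T hpq b) with hρ
  have hρr : ρ ≤ r := hr b
  let M : (J → V) → Prop := fun a => rk (bil T hpq a) = ρ ∧ LinearMap.ker (bil T hpq a) = K
  -- (P1)
  have P1 : ∀ a, M a → ∀ i, i ≠ p → i ≠ q → ∀ v u u', u ∈ K → u' ∈ K →
      bil T hpq (Function.update a i v) u u' = 0 := by
    intro a ha i hip hiq v u u' hu hu'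
    have hu1 : bil T hpq a u = 0 := by
      rw [← ha.2] at hu
      exact hu
    have hu2 : ∀ w, bil T hpq a w u' = 0 := by
      intro w
      rw [← ha.2] at hu'
      rw [bil_symm T hT hpq, LinearMap.mem_ker.1 hu']
      rfl
    refine pencil (bil T hpq a) _ ?_ ?_ u u' hu1 hu2
    · rw [ha.1]
      omega
    · intro t
      rw [← bil_line T hpq hip hiq, ha.1]
      exact hb _
  -- (P2)
  have P2 : ∀ a, M a → ∀ i, i ≠ p → i ≠ q → ∀ x, x ∈ K →
      ∃ s : F, s ≠ 0 ∧ M (Function.update a i (a i + s • x)) := by
    intro a ha i hip hiq x hx
    obtain ⟨s, hs, hrk⟩ := exists_shift (bil T hpq a) (bil T hpq (Function.update a i x)) (by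
      rw [ha.1]
      omega)
    refine ⟨s, hs, ?_⟩
    have h1 : rk (bil T hpq (Function.update a i (a i + s • x))) = ρ := by
      apply le_antisymm (hb _)
      rw [bil_line T hpq hip hiq, ← ha.1]
      exact hrk
    refine ⟨h1, ?_⟩
    have h2 : K ≤ LinearMap.ker (bil T hpq (Function.update a i (a i + s • x))) := by
      intro u hu
      rw [LinearMap.mem_ker, bil_line T hpq hip hiq]
      have h3 : bil T hpq a u = 0 := by
        rw [← ha.2] at hu
        exact hu
      have h4 : bil T hpq (Function.update a i x) u = 0 := by
        ext w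
        rw [bil_symm' T hT hpq hip hiq]
        exact P1 a ha i hip hiq w u x hu hx
      rw [LinearMap.add_apply, LinearMap.smul_apply, h3, h4]
      simp
    symm
    apply Submodule.eq_of_le_of_finrank_eq h2
    have h5 := LinearMap.finrank_range_add_finrank_ker (bil T hpq b)
    have h6 := LinearMap.finrank_range_add_finrank_ker
      (bil T hpq (Function.update a i (a i + s • x)))
    have h7 : finrank F (LinearMap.range (bil T hpq b)) = ρ := rfl
    have h8 : finrank F (LinearMap.range (bil T hpq (Function.update a i (a i + s • x)))) = ρ := h1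
    rw [h7] at h5
    rw [h8] at h6
    rw [hK]
    omega
  -- (C)
  have C : ∀ I : Finset J, p ∉ I → q ∉ I → ∀ a, M a → ∀ x : J → V, (∀ i ∈ I, x i ∈ K) →
      ∀ u u', u ∈ K → u' ∈ K → bil T hpq (fun j => if j ∈ I then x j else a j) u u' = 0 := by
    intro I
    induction I using Finset.induction_on with
    | empty =>
      intro _ _ a ha x _ u u' hu _
      have h1 : (fun j => if j ∈ (∅ : Finset J) then x j else a j) = a := by
        funext j
        simp
      rw [h1]
      rw [← ha.2] at hu
      rw [LinearMap.mem_ker.1 hu]
      rfl
    | insert l I hl ih =>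
      intro hp hq' a ha x hx u u' hu hu'
      rw [Finset.mem_insert, not_or] at hp hq'
      have hlp : l ≠ p := fun h => hp.1 h.symm
      have hlq : l ≠ q := fun h => hq'.1 h.symm
      obtain ⟨s, hs, hM⟩ := P2 a ha l hlp hlq (x l) (hx l (Finset.mem_insert_self _ _))
      have hx' : ∀ i ∈ I, x i ∈ K := fun i hi => hx i (Finset.mem_insert_of_mem hi)
      have h1 := ih hp.2 hq'.2 a ha x hx' u u' hu hu'
      have h2 := ih hp.2 hq'.2 _ hM x hx' u u' hu hu'
      set y : J → V := fun j => if j ∈ I then x j else a j with hy
      have hyl : y l = a l := by simp [hy, hl]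
      have h3 : (fun j => if j ∈ I then x j else Function.update a l (a l + s • x l) j) =
          Function.update y l (y l + s • x l) := by
        funext j
        by_cases hj : j = l
        · subst hj
          simp [hl, hyl]
        · simp [hj, hy]
      have h4 : (fun j => if j ∈ insert l I then x j else a j) = Function.update y l (x l) := by
        funext j
        by_cases hj : j = l
        · subst hj
          simp
        · simp [hj, hy]
      rw [h3, bil_line T hpq hlp hlq, LinearMap.add_apply, LinearMap.add_apply, h1, zero_add,
        LinearMap.smul_apply, LinearMap.smul_apply, smul_eq_mul] at h2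
      rw [h4]
      exact (mul_eq_zero.1 h2).resolve_left hs
  refine ⟨b, fun x hx => ?_⟩
  have h1 := C ((Finset.univ.erase p).erase q) (by simp) (by simp) b ⟨rfl, rfl⟩ x
    (fun i _ => hx i) (x p) (x q) (hx p) (hx q)
  rw [bil_apply] at h1
  rw [← h1]
  congr 1
  funext j
  by_cases hjq : j = q
  · subst hjq
    simp
  · by_cases hjp : j = p
    · subst hjp
      simp [hpq]
    · simp [hjp, hjq]

end Pool.Agent.Work.MP_79d924_lc
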