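import Pool.Agent.Work.MP_79d924_lc.Main

/-!
Parity decision trees and the induction on the degree.
-/

set_option autoImplicit false

namespace Pool.Agent.Work.MP_79d924_lc

open Module

/-- `f` restricted to `S` is computed by a parity decision tree of depth (at most) `t` -/
def PT {V β : Type} [AddCommGroup V] [Module (ZMod 2) V] (f : V → β) : ℕ → Set V → Prop
  | 0, S => ∀ x ∈ S, ∀ y ∈ S, f x = f y
  | (t + 1), S => ∃ l : V →ₗ[ZMod 2] ZMod 2,
      PT f t (S ∩ {x | l x = 0}) ∧ PT f t (S ∩ {x | l x = 1})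

section
variable {V β : Type} [AddCommGroup V] [Module (ZMod 2) V]

theorem PT_mono_set (f : V → β) (t : ℕ) : ∀ (S S' : Set V), S ⊆ S' → PT f t S' → PT f t S := by
  induction t with
  | zero => intro S S' h h' x hx y hy; exact h' x (h hx) y (h hy)
  | succ t ih =>
    intro S S' h h'
    obtain ⟨l, h0, h1⟩ := h'
    exact ⟨l, ih _ _ (Set.inter_subset_inter_left _ h) h0,
      ih _ _ (Set.inter_subset_inter_left _ h) h1⟩

theorem PT_zmod (z : ZMod 2) : z = 0 ∨ z = 1 := by
  revert z; decide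

theorem PT_succ (f : V → β) (t : ℕ) : ∀ S : Set V, PT f t S → PT f (t + 1) S := by
  induction t with
  | zero =>
    intro S h
    refine ⟨0, ?_, ?_⟩
    · rintro x ⟨hx, _⟩ y ⟨hy, _⟩
      exact h x hx y hy
    · rintro x ⟨hx, _⟩ y ⟨hy, _⟩
      exact h x hx y hy
  | succ t ih =>
    rintro S ⟨l, h0, h1⟩
    exact ⟨l, ih _ h0, ih _ h1⟩

theorem PT_mono_le (f : V → β) {t t' : ℕ} (h : t ≤ t') (S : Set V) (h' : PT f t S) :
    PT f t' S := by
  induction h with
  | refl => exact h'
  | step _ ih => exact PT_succ f _ S ih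

theorem PT_query (f : V → β) (t : ℕ) : ∀ (c : ℕ) (l : Fin c → (V →ₗ[ZMod 2] ZMod 2)) (S : Set V),
    (∀ b : Fin c → ZMod 2, PT f t (S ∩ {x | ∀ j, l j x = b j})) → PT f (t + c) S := by
  intro c
  induction c with
  | zero =>
    intro l S h
    refine PT_mono_set f t _ _ ?_ (h (fun _ => 0))
    intro x hx
    exact ⟨hx, fun j => j.elim0⟩
  | succ c ih =>
    intro l S h
    refine ⟨l 0, ?_, ?_⟩
    · refine ih (fun j => l j.succ) _ fun b => ?_
      refine PT_mono_set f t _ _ ?_ (h (Fin.cons 0 b))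
      rintro x ⟨⟨hx, hx0⟩, hx1⟩
      refine ⟨hx, fun j => ?_⟩
      refine Fin.cases ?_ (fun j => ?_) j
      · simpa using hx0
      · simpa using hx1 j
    · refine ih (fun j => l j.succ) _ fun b => ?_
      refine PT_mono_set f t _ _ ?_ (h (Fin.cons 1 b))
      rintro x ⟨⟨hx, hx0⟩, hx1⟩
      refine ⟨hx, fun j => ?_⟩
      refine Fin.cases ?_ (fun j => ?_) j
      · simpa using hx0
      · simpa using hx1 j

theorem PT_transfer (f : V → β) (H : Submodule (ZMod 2) V) (x0 : V) (t : ℕ) :
    ∀ S : Set H, PT (fun y : H => f (x0 + y)) t S →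
      PT f t {x | ∃ y : H, y ∈ S ∧ x = x0 + (y : V)} := by
  induction t with
  | zero =>
    rintro S h x ⟨y, hy, rfl⟩ x' ⟨y', hy', rfl⟩
    exact h y hy y' hy'
  | succ t ih =>
    rintro S ⟨l, h0, h1⟩
    obtain ⟨l', hl'⟩ := LinearMap.exists_extend l
    have hl : ∀ y : H, l' (y : V) = l y := fun y => by
      rw [← hl']; rfl
    have key : ∀ a b : ZMod 2, l' x0 + a = b →
        PT (fun y : H => f (x0 + y)) t (S ∩ {x | l x = a}) →
        PT f t ({x | ∃ y : H, y ∈ S ∧ x = x0 + (y : V)} ∩ {x | l' x = b}) := by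
      intro a b hab h
      refine PT_mono_set f t _ _ ?_ (ih _ h)
      rintro x ⟨⟨y, hy, rfl⟩, hx⟩
      refine ⟨y, ⟨hy, ?_⟩, rfl⟩
      have hx' : l' (x0 + y) = b := hx
      rw [map_add, hl] at hx'
      show l y = a
      have : l' x0 + l y = l' x0 + a := by rw [hx', hab]
      exact add_left_cancel this
    refine ⟨l', ?_, ?_⟩
    · rcases PT_zmod (l' x0) with h | h
      · exact key 0 0 (by rw [h]; decide) h0
      · exact key 1 0 (by rw [h]; decide) h1
    · rcases PT_zmod (l' x0) with h | h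
      · exact key 1 1 (by rw [h]; decide) h1
      · exact key 0 1 (by rw [h]; decide) h0

theorem PT_cert (f : V → β) (t : ℕ) : ∀ S : Set V, PT f t S → ∀ x0 ∈ S,
    ∃ l : Fin t → (V →ₗ[ZMod 2] ZMod 2), ∀ y ∈ S, (∀ j, l j y = l j x0) → f y = f x0 := by
  induction t with
  | zero =>
    intro S h x0 hx0
    exact ⟨fun j => j.elim0, fun y hy _ => h y hy x0 hx0⟩
  | succ t ih =>
    rintro S ⟨l, h0, h1⟩ x0 hx0
    have key : ∀ a : ZMod 2, l x0 = a → PT f t (S ∩ {x | l x = a}) →
        ∃ l : Fin (t + 1) → (V →ₗ[ZMod 2] ZMod 2), ∀ y ∈ S, (∀ j, l j y = l j x0) →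
          f y = f x0 := by
      intro a ha h
      obtain ⟨l', hl'⟩ := ih _ h x0 ⟨hx0, ha⟩
      refine ⟨Fin.cons l l', fun y hy hj => hl' y ⟨hy, ?_⟩ fun j => ?_⟩
      · have := hj 0
        simp only [Fin.cons_zero] at this
        show l y = a
        rw [this, ha]
      · have := hj j.succ
        simpa only [Fin.cons_succ] using this
    rcases PT_zmod (l x0) with h | h
    · exact key 0 h h0
    · exact key 1 h h1

theorem exists_functionals [FiniteDimensional (ZMod 2) V] (H : Submodule (ZMod 2) V) (c : ℕ)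
    (h : finrank (ZMod 2) V ≤ finrank (ZMod 2) H + c) :
    ∃ l : Fin c → (V →ₗ[ZMod 2] ZMod 2), ∀ x, (∀ j, l j x = 0) → x ∈ H := by
  classical
  have hq : finrank (ZMod 2) (V ⧸ H) ≤ c := by
    have := Submodule.finrank_quotient_add_finrank H
    omega
  let b := Module.finBasis (ZMod 2) (V ⧸ H)
  refine ⟨fun j => if hj : (j : ℕ) < finrank (ZMod 2) (V ⧸ H) then
    (b.coord ⟨j, hj⟩).comp H.mkQ else 0, fun x hx => ?_⟩
  rw [← Submodule.Quotient.mk_eq_zero]
  apply b.ext_elem
  intro i
  have := hx ⟨i, lt_of_lt_of_le i.2 hq⟩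
  simp only [Fin.is_lt, dite_true] at this
  simpa using this

end

theorem tree_main (k : ℕ) : ∀ (d : ℕ) (V : Type) [AddCommGroup V] [Module (ZMod 2) V]
    [FiniteDimensional (ZMod 2) V] (f : V → ZMod 2), DegLT (d + 1) f →
    SN (fun x => sgn (f x)) ((2 : ℝ) ^ k) → PT f (cst k d) Set.univ := by
  intro d
  induction d with
  | zero =>
    intro V _ _ _ f hf _ x _ y _
    have := hf (y - x) x
    simp only [dd, add_sub_cancel] at this
    exact (CharTwo.add_eq_zero.mp this).symm
  | succ d ih =>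
    intro V _ _ _ f hf hs
    rcases d with _ | d
    · -- affine
      have h2 : ∀ a b x, f (x + a + b) + f (x + a) + (f (x + b) + f x) = 0 := by
        intro a b x
        have := hf b a x
        simp only [dd] at this
        rw [← this]
      have hadd : ∀ a b, f (a + b) + f 0 = (f a + f 0) + (f b + f 0) := by
        intro a b
        have := h2 a b 0
        rw [zero_add, zero_add] at this
        have h3 : ∀ p q r s : ZMod 2, p + q + (r + s) = 0 → p + s = (q + s) + (r + s) := by decide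
        exact h3 _ _ _ _ this
      let l : V →ₗ[ZMod 2] ZMod 2 := (AddMonoidHom.mk' (fun a => f a + f 0) hadd).toZModLinearMap 2
      have hl : ∀ a, l a = f a + f 0 := fun a => rfl
      have hfl : ∀ a, f a = l a + f 0 := by
        intro a
        rw [hl, add_assoc, CharTwo.add_self_eq_zero, add_zero]
      refine ⟨l, ?_, ?_⟩
      · rintro x ⟨_, hx⟩ y ⟨_, hy⟩
        rw [hfl x, hfl y, show l x = 0 from hx, show l y = 0 from hy]
      · rintro x ⟨_, hx⟩ y ⟨_, hy⟩
        rw [hfl x, hfl y, show l x = 1 from hx, show l y = 1 from hy]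
    · -- degree `d + 2`
      have he : 4 ^ (d + 2 - 2) * (2 ^ (d + 2 - 1) * k) + 3 ≤
          2 ^ (Nat.log 2 (4 ^ d * (2 ^ (d + 1) * k) + 3) + 1) := by
        have : 4 ^ d * (2 ^ (d + 1) * k) + 3
            < 2 ^ (Nat.log 2 (4 ^ d * (2 ^ (d + 1) * k) + 3) + 1) :=
          Nat.lt_pow_succ_log_self (by norm_num) _
        exact this.le
      obtain ⟨H, hH1, hH2⟩ := reduce (d + 2) k _ (by omega) f hf hs he
      obtain ⟨l, hl⟩ := exists_functionals H _ hH1
      have hc : cst k (d + 1 + 1) = cst k (d + 1) +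
          (Nat.log 2 (4 ^ d * (2 ^ (d + 1) * k) + 3) + 1) * (4 ^ d * (2 ^ (d + 1) * k)) := by
        show (Nat.log 2 (4 ^ d * (2 ^ (d + 1) * k) + 3) + 1) * (4 ^ d * (2 ^ (d + 1) * k))
          + cst k (d + 1) = _
        rw [add_comm]
      rw [hc]
      refine PT_query f _ _ l _ fun b => ?_
      by_cases hne : ∃ x0, ∀ j, l j x0 = b j
      · obtain ⟨x0, hx0⟩ := hne
        have h1 := ih H (fun y : H => f (x0 + y)) (hH2 x0) (SN_comp_sub H x0 f _ hs)
        have h2 := PT_transfer f H x0 _ _ h1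
        refine PT_mono_set f _ _ _ ?_ h2
        rintro x ⟨_, hx⟩
        have hxH : x - x0 ∈ H := hl _ fun j => by
          rw [map_sub, hx j, hx0 j, sub_self]
        exact ⟨⟨x - x0, hxH⟩, Set.mem_univ _, by simp⟩
      · have : (Set.univ ∩ {x | ∀ j, l j x = b j}) = (∅ : Set V) := by
          ext x
          simp only [Set.mem_inter_iff, Set.mem_univ, true_and, Set.mem_ofPred_eq,
            Set.mem_empty_iff_false, iff_false]
          intro hx
          exact hne ⟨x, hx⟩
        rw [this]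
        have hemp : ∀ t, PT f t ∅ := by
          intro t
          induction t with
          | zero => intro x hx; exact hx.elim
          | succ t iht => exact ⟨0, by simpa using iht, by simpa using iht⟩
        exact hemp _

end Pool.Agent.Work.MP_79d924_lc
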